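import Pool.Agent.Helper14.BQ.Delta

/-!
The sum over the pairs of surfaces, and its lower bound by the squares.
-/

set_option autoImplicit false

open Finset

namespace Pool.Agent.Helper14.BQ

open Pool.Agent.Helper26.TOR Pool.Agent.Helper94.BQ

variable {k m : ℕ} {V : Type} [AddCommGroup V] [Module ℝ V] {K : V} {g : Fin k → ℕ}

/-- The sum of the `w_i w_j C_i . C_j` over the ordered pairs of different surfaces. -/
noncomputable def pairSum (B : V →ₗ[ℝ] V →ₗ[ℝ] ℝ) (t : Fin k → V) (w : Fin k → ℝ) : ℝ :=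
  ∑ i, ∑ j, if i = j then 0 else w i * w j * B (t i) (t j)

private lemma cross_all (s : Finset (Fin k)) (y : Fin k → ℝ) :
    ∑ i, ∑ j, (if i = j then 0 else if i ∈ s ∧ j ∈ s then y i * y j else 0) =
      (∑ i ∈ s, y i) ^ 2 - ∑ i ∈ s, y i ^ 2 := by
  have h1 : ∀ i j : Fin k, (if i = j then (0 : ℝ) else if i ∈ s ∧ j ∈ s then y i * y j else 0) =
      (if i ∈ s then y i else 0) * (if j ∈ s then y j else 0) -
        if i = j then (if i ∈ s then y i ^ 2 else 0) else 0 := by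
    intro i j
    by_cases hij : i = j
    · subst hij
      by_cases hi : i ∈ s
      · simp [hi, sq]
      · simp [hi]
    · by_cases hi : i ∈ s <;> by_cases hj : j ∈ s <;> simp [hij, hi, hj]
  simp only [h1, Finset.sum_sub_distrib]
  have h2 : ∑ i, ∑ j, (if i ∈ s then y i else 0) * (if j ∈ s then y j else 0) =
      (∑ i ∈ s, y i) ^ 2 := by
    rw [sq, ← Finset.sum_mul_sum]
    simp
  have h3 : ∑ i : Fin k, ∑ j : Fin k, (if i = j then (if i ∈ s then y i ^ 2 else 0) else 0) =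
      ∑ i ∈ s, y i ^ 2 := by
    simp
  rw [h2, h3]

theorem pairSum_eq {B : V →ₗ[ℝ] V →ₗ[ℝ] ℝ} {S : Fin m → Finset (Fin k)} {t : Fin k → V}
    (h : Arr B K S g t) (w : Fin k → ℝ) :
    pairSum B t w = ∑ p, ((∑ i ∈ S p, w i) ^ 2 - ∑ i ∈ S p, w i ^ 2) := by
  have h1 : ∀ i j, (if i = j then 0 else w i * w j * B (t i) (t j)) =
      ∑ p, (if i = j then 0 else if i ∈ S p ∧ j ∈ S p then w i * w j else 0) := by
    intro i j
    by_cases hij : i = j
    · subst hij
      simp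
    · rw [if_neg hij, h.inter i j hij]
      unfold num
      rw [← Finset.sum_boole, Finset.mul_sum]
      refine Finset.sum_congr rfl fun p _ => ?_
      simp [hij]
  unfold pairSum
  simp only [h1]
  rw [Finset.sum_congr rfl fun i _ => Finset.sum_comm, Finset.sum_comm]
  exact Finset.sum_congr rfl fun p _ => cross_all (S p) w

/-- **The inequality with the sum over the pairs.** -/
theorem main_pairs {B : V →ₗ[ℝ] V →ₗ[ℝ] ℝ} (hB : ∀ x y, B x y = B y x)
    {S : Fin m → Finset (Fin k)} {t : Fin k → V} (h : Arr B K S g t) (e : ℝ) (Bl : Finset (Fin m))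
    (hBl : ∀ p ∉ Bl, (S p).card = 2) (w : Fin k → ℝ) (hw : ∀ i, 0 ≤ w i) (z : Fin m → ℝ)
    {δ : ℝ} (hδ : δ ≤ 1 / 2) {κ : Fin m → ℝ} (hc : Cost S Bl w z δ κ) :
    cOneSq S (B (K + ∑ i, w i • t i) (K + ∑ i, w i • t i)) Bl w z + (3 * e - B K K) +
      curv B g t w + δ * pairSum B t w ≤ 3 * cTwo S e g Bl w z + ∑ p ∈ Bl, κ p := by
  have hgap := gap hB h e Bl hBl w z
  rw [pairSum_eq h]
  have split : ∀ f : Fin m → ℝ, ∑ p, f p = ∑ p ∈ Bl, f p + ∑ p ∈ univ \ Bl, f p := by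
    intro f
    rw [← Finset.compl_eq_univ_sdiff, Finset.sum_add_sum_compl]
  have hpt : δ * ∑ p, ((∑ i ∈ S p, w i) ^ 2 - ∑ i ∈ S p, w i ^ 2) ≤ rest S Bl w z +
      (3 * mass S Bl w - ∑ p, ((∑ i ∈ S p, w i) ^ 2 - ∑ i ∈ S p, w i ^ 2)) / 4 +
      ∑ p ∈ Bl, κ p := by
    rw [split fun p => _ - _]
    unfold rest mass
    have h1 : ∑ p ∈ Bl, δ * ((∑ i ∈ S p, w i) ^ 2 - ∑ i ∈ S p, w i ^ 2) ≤
        ∑ p ∈ Bl, ((z p + (∑ i ∈ S p, w i) / 2 - 2) ^ 2 +
        (3 * ∑ i ∈ S p, w i ^ 2 - ((∑ i ∈ S p, w i) ^ 2 - ∑ i ∈ S p, w i ^ 2)) / 4 + κ p) := by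
      refine Finset.sum_le_sum fun p hp => ?_
      have := hc p hp
      linarith
    have h2 : ∑ p ∈ univ \ Bl, δ * ((∑ i ∈ S p, w i) ^ 2 - ∑ i ∈ S p, w i ^ 2) ≤
        ∑ p ∈ univ \ Bl,
        (3 * (2 * ∏ i ∈ S p, w i) - ((∑ i ∈ S p, w i) ^ 2 - ∑ i ∈ S p, w i ^ 2)) / 4 := by
      refine Finset.sum_le_sum fun p hp => ?_
      have hp2 : p ∉ Bl := (Finset.mem_sdiff.mp hp).2
      obtain ⟨a, b, hab, hS⟩ := Finset.card_eq_two.mp (hBl p hp2)
      rw [hS, Finset.prod_pair hab, Finset.sum_pair hab, Finset.sum_pair hab]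
      have h3 := mul_nonneg (hw a) (hw b)
      have h4 := mul_le_mul_of_nonneg_right hδ h3
      linarith
    simp only [Finset.sum_add_distrib, Finset.sum_sub_distrib, ← Finset.mul_sum, ← Finset.sum_div]
      at h1 h2 ⊢
    linarith
  linarith

/-- Classes of nonzero square which are almost orthogonal are independent. -/
theorem card_le_rank_star {B : V →ₗ[ℝ] V →ₗ[ℝ] ℝ} {t : Fin k → V} {N : ℕ} (hN1 : 1 ≤ N)
    (hN : Module.finrank ℝ (Submodule.span ℝ (Set.range t)) ≤ N) (J : Finset (Fin k))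
    (h1 : ∀ i ∈ J, B (t i) (t i) ≠ 0)
    (h2 : ∀ i ∈ J, ∀ j ∈ J, i ≠ j → 0 ≤ B (t i) (t j) ∧
      N * B (t i) (t j) < √|B (t i) (t i)| * √|B (t j) (t j)|) :
    J.card ≤ N := by
  classical
  by_contra hJ
  rw [not_le] at hJ
  obtain ⟨J', hJ', hc'⟩ := Finset.exists_subset_card_eq (show N + 1 ≤ J.card from hJ)
  have hli : LinearIndependent ℝ (fun i : J' => t i) := by
    rw [Fintype.linearIndependent_iff]
    intro c hc
    by_contra hne
    push Not at hne
    obtain ⟨i₀, hi₀⟩ := hne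
    have : Nonempty J' := ⟨i₀⟩
    obtain ⟨i, hi⟩ := Finite.exists_max fun a : J' => |c a| * √|B (t a) (t a)|
    have hpos : ∀ a : J', 0 < √|B (t a) (t a)| := fun a =>
      Real.sqrt_pos.2 (abs_pos.2 (h1 a (hJ' a.2)))
    have hx : 0 < |c i| * √|B (t i) (t i)| :=
      lt_of_lt_of_le (mul_pos (abs_pos.2 hi₀) (hpos i₀)) (hi i₀)
    have e1 : B (t i) (∑ a : J', c a • t a) = 0 := by
      rw [hc, map_zero]
    rw [map_sum, ← Finset.add_sum_erase _ _ (Finset.mem_univ i)] at e1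
    simp only [map_smul, smul_eq_mul] at e1
    have hNpos : (0 : ℝ) < N := by exact_mod_cast hN1
    have hcard : ((Finset.univ : Finset J').erase i).card = N := by
      rw [Finset.card_erase_of_mem (Finset.mem_univ i), Finset.card_univ, Fintype.card_coe, hc']
      rfl
    have hnon : ((Finset.univ : Finset J').erase i).Nonempty := by
      rw [← Finset.card_pos, hcard]
      exact hN1
    have e2 : |∑ a ∈ (Finset.univ : Finset J').erase i, c a * B (t i) (t a)| <
        |c i| * √|B (t i) (t i)| * √|B (t i) (t i)| := by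
      refine lt_of_le_of_lt (Finset.abs_sum_le_sum_abs _ _) ?_
      have e3 : ∑ a ∈ (Finset.univ : Finset J').erase i, |c a * B (t i) (t a)| <
          ∑ _a ∈ (Finset.univ : Finset J').erase i,
            (|c i| * √|B (t i) (t i)| * √|B (t i) (t i)|) / N := by
        refine Finset.sum_lt_sum_of_nonempty hnon fun a ha => ?_
        have hai : a ≠ i := Finset.ne_of_mem_erase ha
        have hne : (i : Fin k) ≠ a := fun h => hai (Subtype.ext h.symm)
        obtain ⟨h3, h4⟩ := h2 i (hJ' i.2) a (hJ' a.2) hne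
        rw [abs_mul, abs_of_nonneg h3, lt_div_iff₀ hNpos]
        rcases eq_or_ne (c a) 0 with h5 | h5
        · rw [h5, abs_zero, zero_mul, zero_mul]
          exact mul_pos hx (hpos i)
        · have h6 : |c a| * (N * B (t i) (t a)) <
              |c a| * (√|B (t i) (t i)| * √|B (t a) (t a)|) :=
            mul_lt_mul_of_pos_left h4 (abs_pos.2 h5)
          have h7 := mul_le_mul_of_nonneg_right (hi a) (hpos i).le
          have h8 : |c a| * B (t i) (t a) * N = |c a| * (N * B (t i) (t a)) := by ring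
          have h9 : |c a| * (√|B (t i) (t i)| * √|B (t a) (t a)|) =
              |c a| * √|B (t a) (t a)| * √|B (t i) (t i)| := by ring
          rw [h8]
          rw [h9] at h6
          exact lt_of_lt_of_le h6 h7
      rw [Finset.sum_const, hcard, nsmul_eq_mul, mul_div_cancel₀ _ hNpos.ne'] at e3
      exact e3
    have e3 : ∑ a ∈ (Finset.univ : Finset J').erase i, c a * B (t i) (t a) =
        -(c i * B (t i) (t i)) := by linarith
    rw [e3, abs_neg, abs_mul, mul_assoc, Real.mul_self_sqrt (abs_nonneg _)] at e2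
    exact lt_irrefl _ e2
  have e2 := finrank_span_eq_card hli
  rw [Fintype.card_coe, hc'] at e2
  have : Module.Finite ℝ (Submodule.span ℝ (Set.range t)) :=
    FiniteDimensional.span_of_finite ℝ (Set.finite_range t)
  have e3 : Module.finrank ℝ (Submodule.span ℝ (Set.range fun i : J' => t i)) ≤
      Module.finrank ℝ (Submodule.span ℝ (Set.range t)) := by
    refine Submodule.finrank_mono (Submodule.span_mono ?_)
    rintro _ ⟨i, rfl⟩
    exact ⟨i, rfl⟩
  omega

/-- the pairs of `I` with the adjacency `c`, if `c w w ≤ w w B` off the diagonal -/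
private lemma pairs_ge {B : V →ₗ[ℝ] V →ₗ[ℝ] ℝ} {t : Fin k → V}
    (hpos : ∀ i j, i ≠ j → 0 ≤ B (t i) (t j)) (w y : Fin k → ℝ) (hw : ∀ i, 0 ≤ w i)
    (c : Fin k → Fin k → ℝ) (hc1 : ∀ a, c a a = 1) (I : Finset (Fin k)) {N : ℝ} (hN : 0 ≤ N)
    (hc : ∀ i j, i ≠ j → c i j * y i * y j ≤ N * (w i * w j * B (t i) (t j))) :
    ∑ i ∈ I, ∑ j ∈ I, c i j * y i * y j ≤ ∑ i ∈ I, y i ^ 2 + N * pairSum B t w := by
  classical
  have h1 : ∀ i j, c i j * y i * y j ≤ (if i = j then y i ^ 2 else 0) +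
      N * (if i = j then 0 else w i * w j * B (t i) (t j)) := by
    intro i j
    by_cases hij : i = j
    · subst hij
      rw [if_pos rfl, if_pos rfl, hc1]
      nlinarith
    · rw [if_neg hij, if_neg hij, zero_add]
      exact hc i j hij
  have hn : ∀ i j, 0 ≤ (if i = j then 0 else w i * w j * B (t i) (t j)) := by
    intro i j
    split_ifs with hij
    · exact le_refl _
    · exact mul_nonneg (mul_nonneg (hw i) (hw j)) (hpos i j hij)
  have h2 : ∑ i ∈ I, ∑ j ∈ I, c i j * y i * y j ≤ ∑ i ∈ I, ∑ j ∈ I, ((if i = j then y i ^ 2 else 0) +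
      N * (if i = j then 0 else w i * w j * B (t i) (t j))) :=
    Finset.sum_le_sum fun i _ => Finset.sum_le_sum fun j _ => h1 i j
  refine h2.trans ?_
  simp only [Finset.sum_add_distrib, ← Finset.mul_sum]
  have e1 : ∑ i ∈ I, ∑ j ∈ I, (if i = j then y i ^ 2 else 0) = ∑ i ∈ I, y i ^ 2 :=
    Finset.sum_congr rfl fun i hi => by rw [Finset.sum_ite_eq, if_pos hi]
  rw [e1]
  have e2 : ∑ i ∈ I, ∑ j ∈ I, (if i = j then 0 else w i * w j * B (t i) (t j)) ≤ pairSum B t w := by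
    unfold pairSum
    exact (Finset.sum_le_sum fun i _ => Finset.sum_le_univ_sum_of_nonneg fun j => hn i j).trans
      (Finset.sum_le_univ_sum_of_nonneg fun i => Finset.sum_nonneg fun j _ => hn i j)
  have := mul_le_mul_of_nonneg_left e2 hN
  linarith

open scoped Classical in
/-- The surfaces of nonzero square. -/
noncomputable def sqSurf (B : V →ₗ[ℝ] V →ₗ[ℝ] ℝ) (t : Fin k → V) : Finset (Fin k) :=
  univ.filter fun i => B (t i) (t i) ≠ 0

lemma mem_sqSurf {B : V →ₗ[ℝ] V →ₗ[ℝ] ℝ} {t : Fin k → V} {i : Fin k} :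
    i ∈ sqSurf B t ↔ B (t i) (t i) ≠ 0 := by
  classical
  unfold sqSurf
  simp

/-- The total weight of the surfaces of nonzero square. -/
noncomputable def size (B : V →ₗ[ℝ] V →ₗ[ℝ] ℝ) (t : Fin k → V) (w : Fin k → ℝ) : ℝ :=
  ∑ i ∈ sqSurf B t, w i

/-- The sum of the `w_i √|C_i²|`. -/
noncomputable def star (B : V →ₗ[ℝ] V →ₗ[ℝ] ℝ) (t : Fin k → V) (w : Fin k → ℝ) : ℝ :=
  ∑ i, w i * √|B (t i) (t i)|

lemma star_eq (B : V →ₗ[ℝ] V →ₗ[ℝ] ℝ) (t : Fin k → V) (w : Fin k → ℝ) :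
    star B t w = ∑ i ∈ sqSurf B t, w i * √|B (t i) (t i)| := by
  unfold star
  symm
  refine Finset.sum_subset (Finset.subset_univ _) fun i _ hi => ?_
  have h1 : B (t i) (t i) = 0 := by
    by_contra h
    exact hi (mem_sqSurf.2 h)
  rw [h1, abs_zero, Real.sqrt_zero, mul_zero]

/-- The number of intersecting pairs. -/
theorem pairSum_ge_set {B : V →ₗ[ℝ] V →ₗ[ℝ] ℝ} {S : Fin m → Finset (Fin k)} {t : Fin k → V}
    (h : Arr B K S g t) (w : Fin k → ℝ) (hw : ∀ i, 0 ≤ w i) {N : ℕ} (hN1 : 1 ≤ N)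
    (hN : Module.finrank ℝ (Submodule.span ℝ (Set.range t)) ≤ N) (hB : ∀ x y, B x y = B y x)
    (I : Finset (Fin k)) (hI : ∀ i ∈ I, B (t i) (t i) ≠ 0) :
    (∑ i ∈ I, w i) ^ 2 / N - ∑ i ∈ I, w i ^ 2 ≤ pairSum B t w := by
  classical
  have hpos : ∀ i j, i ≠ j → 0 ≤ B (t i) (t j) := fun i j hij => by
    rw [h.inter i j hij]
    exact Nat.cast_nonneg _
  set c : Fin k → Fin k → ℝ := fun i j => if i = j ∨ B (t i) (t j) ≠ 0 then 1 else 0 with hcdef
  have hc1 : ∀ a, c a a = 1 := fun a => by simp [hcdef]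
  have hsym : ∀ a b, c a b = c b a := fun a b => by
    simp only [hcdef, hB (t a) (t b), eq_comm (a := a)]
  have h01 : ∀ a b, c a b = 0 ∨ c a b = 1 := fun a b => by
    simp only [hcdef]
    split_ifs <;> simp
  have hms := motzkin_straus c hc1 hsym h01 N I.card I rfl (by
    intro J hJ hJ0
    refine card_le_rank hN J (fun i hi => hI i (hJ hi)) fun i hi j hj hij => ?_
    by_contra h1
    have h2 := hJ0 i hi j hj hij
    simp only [hcdef] at h2
    rw [if_pos (Or.inr h1)] at h2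
    exact one_ne_zero h2) w hw
  have h1 := pairs_ge hpos w w hw c hc1 I (zero_le_one (α := ℝ)) (by
    intro i j hij
    have h2 := hpos i j hij
    have h3 : 0 ≤ w i * w j := mul_nonneg (hw i) (hw j)
    rw [one_mul]
    simp only [hcdef]
    split_ifs with h4
    · have h5 : (1 : ℝ) ≤ B (t i) (t j) := by
        have h6 : B (t i) (t j) ≠ 0 := h4.resolve_left hij
        rw [h.inter i j hij] at h6 ⊢
        have h7 : num S i j ≠ 0 := by exact_mod_cast h6
        exact_mod_cast Nat.one_le_iff_ne_zero.2 h7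
      nlinarith
    · rw [zero_mul, zero_mul]
      exact mul_nonneg h3 h2)
  have hNpos : (0 : ℝ) < N := by exact_mod_cast hN1
  have h2 : (∑ i ∈ I, w i) ^ 2 / N ≤ ∑ a ∈ I, ∑ b ∈ I, c a b * w a * w b := by
    rw [div_le_iff₀ hNpos]
    linarith
  linarith

/-- The squares force intersections. -/
theorem pairSum_ge_star {B : V →ₗ[ℝ] V →ₗ[ℝ] ℝ} {S : Fin m → Finset (Fin k)} {t : Fin k → V}
    (h : Arr B K S g t) (w : Fin k → ℝ) (hw : ∀ i, 0 ≤ w i) {N : ℕ} (hN1 : 1 ≤ N)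
    (hN : Module.finrank ℝ (Submodule.span ℝ (Set.range t)) ≤ N) (hB : ∀ x y, B x y = B y x) :
    (star B t w ^ 2 / N - ∑ i, w i ^ 2 * |B (t i) (t i)|) / N ≤ pairSum B t w := by
  classical
  have hNpos : (0 : ℝ) < N := by exact_mod_cast hN1
  have hpos : ∀ i j, i ≠ j → 0 ≤ B (t i) (t j) := fun i j hij => by
    rw [h.inter i j hij]
    exact Nat.cast_nonneg _
  set c : Fin k → Fin k → ℝ := fun i j =>
    if i = j ∨ √|B (t i) (t i)| * √|B (t j) (t j)| ≤ N * B (t i) (t j) then 1 else 0 with hcdef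
  have hc1 : ∀ a, c a a = 1 := fun a => by simp [hcdef]
  have hsym : ∀ a b, c a b = c b a := fun a b => by
    simp only [hcdef, hB (t a) (t b), eq_comm (a := a), mul_comm (√|B (t a) (t a)|)]
  have h01 : ∀ a b, c a b = 0 ∨ c a b = 1 := fun a b => by
    simp only [hcdef]
    split_ifs <;> simp
  have hy : ∀ i, 0 ≤ w i * √|B (t i) (t i)| := fun i => mul_nonneg (hw i) (Real.sqrt_nonneg _)
  have hms := motzkin_straus c hc1 hsym h01 N (sqSurf B t).card (sqSurf B t) rfl (by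
    intro J hJ hJ0
    refine card_le_rank_star hN1 hN J (fun i hi => mem_sqSurf.1 (hJ hi))
      fun i hi j hj hij => ⟨hpos i j hij, ?_⟩
    by_contra h1
    have h2 := hJ0 i hi j hj hij
    simp only [hcdef] at h2
    rw [if_pos (Or.inr (not_lt.1 h1))] at h2
    exact one_ne_zero h2) (fun i => w i * √|B (t i) (t i)|) hy
  have h1 := pairs_ge hpos w (fun i => w i * √|B (t i) (t i)|) hw c hc1 (sqSurf B t) hNpos.le (by
    intro i j hij
    have h2 := hpos i j hij
    have h3 : 0 ≤ w i * w j := mul_nonneg (hw i) (hw j)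
    simp only [hcdef]
    split_ifs with h4
    · have h5 := h4.resolve_left hij
      have h6 := mul_le_mul_of_nonneg_left h5 h3
      calc 1 * (w i * √|B (t i) (t i)|) * (w j * √|B (t j) (t j)|)
          = w i * w j * (√|B (t i) (t i)| * √|B (t j) (t j)|) := by ring
        _ ≤ w i * w j * (N * B (t i) (t j)) := h6
        _ = N * (w i * w j * B (t i) (t j)) := by ring
    · rw [zero_mul, zero_mul]
      exact mul_nonneg hNpos.le (mul_nonneg h3 h2))
  have h2 : star B t w ^ 2 / N ≤ ∑ a ∈ sqSurf B t, ∑ b ∈ sqSurf B t,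
      c a b * (w a * √|B (t a) (t a)|) * (w b * √|B (t b) (t b)|) := by
    rw [div_le_iff₀ hNpos, star_eq]
    linarith
  have h3 : ∑ i ∈ sqSurf B t, (w i * √|B (t i) (t i)|) ^ 2 ≤ ∑ i, w i ^ 2 * |B (t i) (t i)| := by
    have e1 : ∀ i, (w i * √|B (t i) (t i)|) ^ 2 = w i ^ 2 * |B (t i) (t i)| := fun i => by
      rw [mul_pow, Real.sq_sqrt (abs_nonneg _)]
    simp only [e1]
    exact Finset.sum_le_univ_sum_of_nonneg fun i => mul_nonneg (sq_nonneg _) (abs_nonneg _)
  rw [div_le_iff₀ hNpos]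
  linarith

/-- The curvature term against the squares. -/
theorem curv_ge_star {B : V →ₗ[ℝ] V →ₗ[ℝ] ℝ} {t : Fin k → V} (w : Fin k → ℝ)
    (hw : ∀ i, 0 ≤ w i) (hw1 : ∀ i, w i ≤ 1) (hg : ∀ i, g i = 0 → B (t i) (t i) ≠ 0) {R : ℝ}
    (hR0 : 0 ≤ R) (hR : ∀ i, -B (t i) (t i) - g i ≤ R * √|B (t i) (t i)|) {ε : ℝ} (hε : ε ≤ 1 / 2) :
    ε * ∑ i, w i ^ 2 * |B (t i) (t i)| - 2 * size B t w - 2 * R * star B t w ≤ curv B g t w := by
  classical
  have e1 : size B t w = ∑ i, if B (t i) (t i) ≠ 0 then w i else 0 := by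
    unfold size sqSurf
    rw [Finset.sum_filter]
  unfold curv star
  rw [e1, Finset.mul_sum, Finset.mul_sum, Finset.mul_sum, ← Finset.sum_sub_distrib,
    ← Finset.sum_sub_distrib]
  refine Finset.sum_le_sum fun i _ => ?_
  have hg0 : (0 : ℝ) ≤ g i := Nat.cast_nonneg _
  have hwi := hw i
  have hwi1 := hw1 i
  have hRi := mul_le_mul_of_nonneg_left (hR i) hwi
  have hw2 : w i ^ 2 ≤ w i := by nlinarith
  rcases lt_trichotomy (B (t i) (t i)) 0 with hs | hs | hs
  · rw [if_pos hs.ne]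
    rw [abs_of_neg hs] at hRi ⊢
    have h1 : 0 ≤ w i ^ 2 * -B (t i) (t i) := mul_nonneg (sq_nonneg _) (by linarith)
    have h2 : ε * (w i ^ 2 * -B (t i) (t i)) ≤ 1 / 2 * (w i ^ 2 * -B (t i) (t i)) :=
      mul_le_mul_of_nonneg_right hε h1
    nlinarith
  · rw [if_neg (not_not.2 hs)]
    have hg1 : (1 : ℝ) ≤ g i := by
      have : g i ≠ 0 := fun h => hg i h hs
      exact_mod_cast Nat.one_le_iff_ne_zero.2 this
    rw [hs, abs_zero, Real.sqrt_zero]
    nlinarith
  · rw [if_pos hs.ne']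
    rw [abs_of_pos hs] at hRi ⊢
    have h1 : 0 ≤ w i ^ 2 * B (t i) (t i) := mul_nonneg (sq_nonneg _) hs.le
    have h2 : ε * (w i ^ 2 * B (t i) (t i)) ≤ 1 / 2 * (w i ^ 2 * B (t i) (t i)) :=
      mul_le_mul_of_nonneg_right hε h1
    have h3 : w i ^ 2 * B (t i) (t i) ≤ w i * B (t i) (t i) :=
      mul_le_mul_of_nonneg_right hw2 hs.le
    have h4 : 0 ≤ w i * g i := mul_nonneg hwi hg0
    have h5 : 0 ≤ R * (w i * √(B (t i) (t i))) :=
      mul_nonneg hR0 (mul_nonneg hwi (Real.sqrt_nonneg _))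
    nlinarith

end Pool.Agent.Helper14.BQ
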