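import Mathlib
import Pool.Agent.Helper14.BQ.Star

/-!
# MP_872606_gt: branched coverings of an arbitrary symplectic four-manifold

`X` is any closed symplectic four-manifold with canonical class `K` and Euler number `e`, and the `C_i` are
symplectic surfaces of genus `g_i`, of any square, which meet positively in ordinary multiple points.
`V = H_2(X; ℝ)`, `B` is the intersection form, `t i` is the class of `C_i` (`Arr`), `S p` is the set of
the surfaces through the point `p`.  The points of `Bl` are blown up, the others are ordinary double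
points.  For the weights `w_i = 1 - 1 / n_i` and `z_p = 1 - 1 / m_p` the numbers `cOneSq`, `cTwo` are the
Chern numbers, divided by the degree, of a covering which is branched with the orders `n_i` along the
`C_i` and `m_p` along the exceptional spheres.
-/

set_option autoImplicit false

open Finset

namespace Pool.Agent.Helper14.BQ

open Pool.Agent.Helper26.TOR Pool.Agent.Helper94.BQ

/-- **Main theorem: points cost at most `κ`, pairs gain at least `δ`.** `N` is at least the rank of the span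
of the classes of the `C_i` (for example `N = b_2(X)`), `P = pairSum` is the sum of the `w_i w_j C_i . C_j`
over `i ≠ j`, `Y = star` is the sum of the `w_i √|C_i²|`. Let `0 ≤ δ ≤ 1 / 2` and let the costs `κ_p` be
admissible (`Cost`). Then `c_1² + (3 e - K²) + curv + δ P ≤ 3 c_2 + ∑ κ_p`, where
`P ≥ Y² / N² - (∑ w_i² |C_i²|) / N` and `P ≥ (∑ w_i)² / N - ∑ w_i²`, the sums over any set of surfaces
with `C_i² ≠ 0`.
If no `C_i` is a sphere of square `0`, the `w_i` are at most `1` and `- C_i² - g_i ≤ R √|C_i²|`, then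
`c_1² + (3 e - K²) + δ (Y / N)² - (2 R + 2) Y ≤ 3 c_2 + ∑ κ_p`; so `c_1² ≤ 3 c_2` if `Y` is large.
Admissible costs of the points of multiplicity `k` and total weight `s`, all of multiplicity `≥ 1`:
`s² ((k - 4) + 4 δ (k - 1)) / (4 k)` for all real `z_p`; the `θ`-cost, linear in the weights for `δ = 0`, for
`z_p ≥ 0`; and `0` with `δ = 1 / (2 r²)` if all branching orders are equal to some `n ≥ 4 r` and there
are at most `r`-fold points. -/
theorem result (V : Type) [AddCommGroup V] [Module ℝ V] (B : V →ₗ[ℝ] V →ₗ[ℝ] ℝ)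
    (hB : ∀ x y, B x y = B y x) (k m N : ℕ) (K : V) (S : Fin m → Finset (Fin k)) (g : Fin k → ℕ)
    (t : Fin k → V) (h : Arr B K S g t) (hN1 : 1 ≤ N)
    (hN : Module.finrank ℝ (Submodule.span ℝ (Set.range t)) ≤ N) (e : ℝ)
    (Bl : Finset (Fin m)) (hBl : ∀ p ∉ Bl, (S p).card = 2) (w : Fin k → ℝ) (z : Fin m → ℝ)
    (hw : ∀ i, 0 ≤ w i) :
    (∀ δ : ℝ, 0 ≤ δ → δ ≤ 1 / 2 → ∀ κ : Fin m → ℝ, Cost S Bl w z δ κ →
      cOneSq S (B (K + ∑ i, w i • t i) (K + ∑ i, w i • t i)) Bl w z + (3 * e - B K K) +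
        curv B g t w + δ * pairSum B t w ≤ 3 * cTwo S e g Bl w z + ∑ p ∈ Bl, κ p ∧
      ∀ R : ℝ, 0 ≤ R → (∀ i, -B (t i) (t i) - g i ≤ R * √|B (t i) (t i)|) →
        (∀ i, g i = 0 → B (t i) (t i) ≠ 0) → (∀ i, B (t i) (t i) ≠ 0 → 1 ≤ |B (t i) (t i)|) →
        (∀ i, w i ≤ 1) →
        cOneSq S (B (K + ∑ i, w i • t i) (K + ∑ i, w i • t i)) Bl w z + (3 * e - B K K) +
          (δ * (star B t w / N) ^ 2 - (2 * R + 2) * star B t w) ≤
            3 * cTwo S e g Bl w z + ∑ p ∈ Bl, κ p ∧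
        (0 < δ → N ^ 2 * (2 * R + 2) / δ + N * √((B K K - 3 * e + ∑ p ∈ Bl, κ p) / δ) ≤
            star B t w →
          cOneSq S (B (K + ∑ i, w i • t i) (K + ∑ i, w i • t i)) Bl w z ≤
            3 * cTwo S e g Bl w z)) ∧
    (star B t w ^ 2 / N - ∑ i, w i ^ 2 * |B (t i) (t i)|) / N ≤ pairSum B t w ∧
    (∀ I : Finset (Fin k), (∀ i ∈ I, B (t i) (t i) ≠ 0) →
      (∑ i ∈ I, w i) ^ 2 / N - ∑ i ∈ I, w i ^ 2 ≤ pairSum B t w) ∧
    (∀ δ : ℝ, 0 ≤ δ → Cost S Bl w z δ fun p =>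
      (((S p).card - 4) + 4 * δ * ((S p).card - 1)) / (4 * (S p).card) *
        (∑ i ∈ S p, w i) ^ 2) ∧
    (∀ (δ : ℝ) (θ : Fin m → ℝ), (∀ p ∈ Bl, 0 ≤ z p) → (∀ p, 0 ≤ θ p ∧ θ p ≤ 1) →
      Cost S Bl w z δ fun p => δ * ((∑ i ∈ S p, w i) ^ 2 - ∑ i ∈ S p, w i ^ 2) +
        ∑ i ∈ S p, w i * (2 - 2 * θ p + ((S p).card * θ p ^ 2 / 4 - 1) * w i)) ∧
    (∀ n r : ℕ, 2 ≤ r → 4 * r ≤ n → (∀ p ∈ Bl, (S p).card ≤ r) → (∀ i, w i = 1 - 1 / n) →
      (∀ p, z p = 1 - 1 / n) → Cost S Bl w z (1 / (2 * r ^ 2)) 0) := by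
  have hstar := pairSum_ge_star h w hw hN1 hN hB
  refine ⟨fun δ hδ0 hδ κ hc => ?_, hstar, pairSum_ge_set h w hw hN1 hN hB,
    fun δ hδ0 => cost_all S Bl w z hδ0,
    fun δ θ hz hθ => cost_theta S Bl w hw z hz θ hθ δ, fun n r hr hn h3 hwn hzn => ?_⟩
  · have h0 := main_pairs hB h e Bl hBl w hw z hδ hc
    refine ⟨h0, fun R hR0 hR hg hint hw1 => ?_⟩
    have hNpos : (0 : ℝ) < N := by exact_mod_cast hN1
    have hN1' : (1 : ℝ) ≤ N := by exact_mod_cast hN1
    have h1 : cOneSq S (B (K + ∑ i, w i • t i) (K + ∑ i, w i • t i)) Bl w z + (3 * e - B K K) +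
          (δ * (star B t w / N) ^ 2 - (2 * R + 2) * star B t w) ≤
            3 * cTwo S e g Bl w z + ∑ p ∈ Bl, κ p := by
      have hε : δ / N ≤ 1 / 2 := (div_le_self hδ0 hN1').trans hδ
      have h1 := curv_ge_star w hw hw1 hg hR0 hR hε
      have h2 : size B t w ≤ star B t w := by
        rw [star_eq]
        unfold size
        refine Finset.sum_le_sum fun i hi => ?_
        have h3 : 1 ≤ √|B (t i) (t i)| := by
          rw [Real.one_le_sqrt]
          exact hint i (mem_sqSurf.1 hi)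
        nlinarith [hw i]
      have h3 := mul_le_mul_of_nonneg_left hstar hδ0
      have h4 : δ * ((star B t w ^ 2 / N - ∑ i, w i ^ 2 * |B (t i) (t i)|) / N) =
          δ * (star B t w / N) ^ 2 - δ / N * ∑ i, w i ^ 2 * |B (t i) (t i)| := by
        field_simp
      linarith
    refine ⟨h1, fun hδp hY => ?_⟩
    set D : ℝ := B K K - 3 * e + ∑ p ∈ Bl, κ p with hD
    set a : ℝ := 2 * R + 2 with ha
    set Y : ℝ := star B t w with hYdef
    set b : ℝ := √(D / δ) with hb
    have hb0 : 0 ≤ b := Real.sqrt_nonneg _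
    have hb2 : D / δ ≤ b ^ 2 := by
      rcases le_total 0 (D / δ) with h2 | h2
      · rw [hb, Real.sq_sqrt h2]
      · exact h2.trans (sq_nonneg b)
    have hb3 : D ≤ δ * b ^ 2 := by
      rw [div_le_iff₀ hδp] at hb2
      linarith
    have ha0 : 0 ≤ a := by
      rw [ha]
      linarith
    have h2 : δ * b / N ≤ δ * Y / N ^ 2 - a := by
      have h3 := mul_le_mul_of_nonneg_left hY (div_nonneg hδ0 (sq_nonneg (N : ℝ)))
      have e1 : δ / (N : ℝ) ^ 2 * (N ^ 2 * a / δ + N * b) = a + δ * b / N := by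
        field_simp
      have e2 : δ / (N : ℝ) ^ 2 * Y = δ * Y / N ^ 2 := by ring
      rw [e1, e2] at h3
      linarith
    have h3 : N * b ≤ Y := by
      have : 0 ≤ (N : ℝ) ^ 2 * a / δ := by positivity
      linarith
    have h4 : δ * b ^ 2 ≤ δ * (Y / N) ^ 2 - a * Y := by
      have h5 : 0 ≤ δ * b / N := by positivity
      have h7 : 0 ≤ N * b := by positivity
      have h6 := mul_le_mul h3 h2 h5 (h7.trans h3)
      have e1 : (N : ℝ) * b * (δ * b / N) = δ * b ^ 2 := by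
        field_simp
      have e2 : Y * (δ * Y / N ^ 2 - a) = δ * (Y / N) ^ 2 - a * Y := by
        rw [div_pow]
        ring
      rw [e1, e2] at h6
      exact h6
    linarith
  · have hwe : w = fun _ => 1 - 1 / (n : ℝ) := funext hwn
    have hze : z = fun _ => 1 - 1 / (n : ℝ) := funext hzn
    rw [hwe, hze]
    have hn2 : 2 ≤ n := by omega
    have hnr : 2 * r * (n - 1) ≤ (n + 1) ^ 2 := by
      have : n - 1 ≤ n := Nat.sub_le _ _
      nlinarith
    intro p hp
    have h1 := cost_n S Bl n r hn2 hr hnr h3 p hp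
    rw [Pi.zero_apply, sub_zero] at h1 ⊢
    refine le_trans (mul_le_mul_of_nonneg_right ?_ ?_) h1
    · have hr0 : (2 : ℝ) ≤ r := by exact_mod_cast hr
      have hn0 : 4 * (r : ℝ) ≤ n := by exact_mod_cast hn
      have hp1 : 0 < (n : ℝ) - 1 := by linarith
      have hp2 : 0 < (r : ℝ) - 1 := by linarith
      rw [div_le_div_iff₀ (by positivity) (by positivity), one_mul]
      have h5 : (r : ℝ) * (r - 1) * ((n : ℝ) - 1) ^ 2 ≤ r ^ 2 * ((n : ℝ) - 1) ^ 2 := by
        have : (r : ℝ) * (r - 1) ≤ r ^ 2 := by nlinarith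
        exact mul_le_mul_of_nonneg_right this (sq_nonneg _)
      have h6 : ((n : ℝ) - 1) ^ 2 ≤ (((n : ℝ) + 1) ^ 2 - 2 * r * (n - 1)) * 2 := by
        nlinarith
      have h7 := mul_le_mul_of_nonneg_left h6 (sq_nonneg (r : ℝ))
      linarith
    · have h2 : (∑ _i ∈ S p, (1 - 1 / (n : ℝ)) ^ 2) ≤ (∑ _i ∈ S p, (1 - 1 / (n : ℝ))) ^ 2 := by
        rw [Finset.sum_const, Finset.sum_const, nsmul_eq_mul, nsmul_eq_mul]
        have hc : ((S p).card : ℝ) ≤ ((S p).card : ℝ) ^ 2 := by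
          exact_mod_cast Nat.le_self_pow two_ne_zero _
        nlinarith [mul_le_mul_of_nonneg_right hc (sq_nonneg (1 - 1 / (n : ℝ)))]
      linarith

end Pool.Agent.Helper14.BQ
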