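import Pool.Agent.Helper14.BQ.Large

/-!
Corollary: over any base all large branched coverings with at most triple points satisfy the inequality.
-/

set_option autoImplicit false

open Finset

namespace Pool.Agent.Helper14.BQ

open Pool.Agent.Helper26.TOR Pool.Agent.Helper94.BQ

variable {k m : ℕ} {V : Type} [AddCommGroup V] [Module ℝ V] {K : V} {g : Fin k → ℕ}

open scoped Classical in
/-- the surfaces of negative square -/
noncomputable def neg (B : V →ₗ[ℝ] V →ₗ[ℝ] ℝ) (t : Fin k → V) : Finset (Fin k) :=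
  univ.filter fun i => B (t i) (t i) < 0

/-- At most triple points, every sphere of negative square, all squares at least `-M`, weights in `[0, 1]`:
then `Y² / (8 N)` wins against `(2 M + 17 / 8) Y`, where `Y` is the total weight of the surfaces of negative
square. -/
theorem large {B : V →ₗ[ℝ] V →ₗ[ℝ] ℝ} (hB : ∀ x y, B x y = B y x)
    {S : Fin m → Finset (Fin k)} {t : Fin k → V} (h : Arr B K S g t) (e : ℝ) (Bl : Finset (Fin m))
    (hBl : ∀ p ∉ Bl, (S p).card = 2) (hS3 : ∀ p, (S p).card ≤ 3)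
    (w : Fin k → ℝ) (hw : ∀ i, 0 ≤ w i) (hw1 : ∀ i, w i ≤ 1) (z : Fin m → ℝ)
    {N : ℕ} (hN1 : 1 ≤ N) (hN : NegLE B (Submodule.span ℝ (Set.range t)) N)
    (hg : ∀ i, g i = 0 → B (t i) (t i) < 0) {M : ℝ} (hM0 : 0 ≤ M) (hM : ∀ i, -M ≤ B (t i) (t i)) :
    cOneSq S (B (K + ∑ i, w i • t i) (K + ∑ i, w i • t i)) Bl w z + (3 * e - B K K) +
      (∑ i ∈ neg B t, w i) ^ 2 / (8 * N) - (2 * M + 17 / 8) * ∑ i ∈ neg B t, w i ≤
        3 * cTwo S e g Bl w z := by
  classical
  have h5 : ∀ p, ¬ 5 ≤ (S p).card := fun p => by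
    have := hS3 p
    omega
  have h0 := main_ineq hB h e Bl hBl w hw z (fun p hp => absurd hp (h5 p)) (fun _ => 0)
    (fun _ => ⟨le_refl 0, zero_le_one⟩) hN1 hN (neg B t)
    (fun i hi => by
      unfold neg at hi
      exact (Finset.mem_filter.1 hi).2)
    (fun i _ j _ _ p hi hj => ⟨p, hi, hj, hS3 p⟩)
  have hc : ∀ i, cost S (fun _ => 0) (w i) i = 0 := by
    intro i
    unfold cost
    rw [Finset.filter_false_of_mem, Finset.sum_empty]
    rintro p _ ⟨_, hp⟩
    exact h5 p hp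
  have h1 : -(2 + 2 * M) * ∑ i ∈ neg B t, w i ≤
      ∑ i, w i * (2 * (g i : ℝ) - 2 + (2 - w i) * B (t i) (t i) - cost S (fun _ => 0) (w i) i) := by
    have e1 : ∑ i ∈ neg B t, w i = ∑ i, if B (t i) (t i) < 0 then w i else 0 := by
      unfold neg
      rw [Finset.sum_filter]
    rw [e1, Finset.mul_sum]
    refine Finset.sum_le_sum fun i _ => ?_
    rw [hc i, sub_zero]
    have hg0 : (0 : ℝ) ≤ g i := Nat.cast_nonneg _
    by_cases hi : B (t i) (t i) < 0
    · rw [if_pos hi]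
      have h2 : -(2 + 2 * M) ≤ 2 * (g i : ℝ) - 2 + (2 - w i) * B (t i) (t i) := by
        nlinarith [mul_nonneg (hw i) (neg_nonneg.2 hi.le), hM i]
      nlinarith [mul_le_mul_of_nonneg_left h2 (hw i)]
    · rw [if_neg hi, mul_zero]
      have hg1 : (1 : ℝ) ≤ g i := by
        have : g i ≠ 0 := fun h => hi (hg i h)
        exact_mod_cast Nat.one_le_iff_ne_zero.2 this
      refine mul_nonneg (hw i) ?_
      have := mul_nonneg (sub_nonneg.2 ((hw1 i).trans one_le_two)) (not_lt.1 hi)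
      linarith
  have h2 : ∑ i ∈ neg B t, w i ^ 2 ≤ ∑ i ∈ neg B t, w i :=
    Finset.sum_le_sum fun i _ => by nlinarith [hw i, hw1 i]
  have h3 : (∑ i ∈ neg B t, w i) ^ 2 / N / 8 = (∑ i ∈ neg B t, w i) ^ 2 / (8 * N) := by
    rw [div_div, mul_comm (N : ℝ) 8]
  linarith

end Pool.Agent.Helper14.BQ
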