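import Mathlib

/-!
# Arrangements of symplectic surfaces and the Chern numbers of branched coverings: definitions

`V = H_2(X; ℝ)`, `B` is the intersection form, `K` is the canonical class, `e` is the Euler number of `X`,
`t i` is the class and `g i` the genus of the surface number `i`, and `S p` is the set of the surfaces
through the point number `p`. The points of `Bl` are blown up. The weights are `w i` for the surfaces and
`z p` for the exceptional spheres.
-/

set_option autoImplicit false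

open Finset

namespace Pool.Agent.Helper14.BQ.D

variable {k m : ℕ} {V : Type} [AddCommGroup V] [Module ℝ V]

/-- the number of the common points of the surfaces `i` and `j` -/
def num (S : Fin m → Finset (Fin k)) (i j : Fin k) : ℕ :=
  (univ.filter fun p => i ∈ S p ∧ j ∈ S p).card

/-- the number of points on the surface `i` -/
def deg (S : Fin m → Finset (Fin k)) (i : Fin k) : ℕ := (univ.filter fun p => i ∈ S p).card

/-- Adjunction, and the surfaces meet pairwise positively and transversally, with the incidences `S`. -/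
structure Arr (B : V →ₗ[ℝ] V →ₗ[ℝ] ℝ) (K : V) (S : Fin m → Finset (Fin k)) (g : Fin k → ℕ)
    (t : Fin k → V) : Prop where
  adj : ∀ i, B K (t i) + B (t i) (t i) = 2 * g i - 2
  inter : ∀ i j, i ≠ j → B (t i) (t j) = num S i j

/-- `c_2` of the covering, divided by its degree: the sum over the strata of the Euler number times the
product of the `1 - weight`. -/
noncomputable def cTwo (S : Fin m → Finset (Fin k)) (e : ℝ) (g : Fin k → ℕ) (Bl : Finset (Fin m))
    (w : Fin k → ℝ) (z : Fin m → ℝ) : ℝ :=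
  (e + ∑ i, (2 * (g i : ℝ) - 2) + ∑ p, (((S p).card : ℝ) - 1)) +
    ∑ i, (2 - 2 * (g i : ℝ) - deg S i) * (1 - w i) +
    ∑ p ∈ univ \ Bl, ∏ i ∈ S p, (1 - w i) +
    ∑ p ∈ Bl, ((2 - ((S p).card : ℝ)) * (1 - z p) + ∑ i ∈ S p, (1 - w i) * (1 - z p))

/-- `c_1²` of the covering, divided by its degree: the square of `K + ∑ w_i C_i + ∑ (1 + z_p - s_p) E_p`,
where `q` is the square of `K + ∑ w_i C_i` in `X` and `s_p` is the sum of the `w_i` over the surfaces
through `p`. -/
noncomputable def cOneSq (S : Fin m → Finset (Fin k)) (q : ℝ) (Bl : Finset (Fin m)) (w : Fin k → ℝ)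
    (z : Fin m → ℝ) : ℝ :=
  q - ∑ p ∈ Bl, (1 + z p - ∑ i ∈ S p, w i) ^ 2

/-- the sum of the `w_i (2 g_i - 2 + (2 - w_i) C_i²)` -/
noncomputable def curv (B : V →ₗ[ℝ] V →ₗ[ℝ] ℝ) (g : Fin k → ℕ) (t : Fin k → V) (w : Fin k → ℝ) : ℝ :=
  ∑ i, w i * (2 * (g i : ℝ) - 2 + (2 - w i) * B (t i) (t i))

/-- The costs `κ p` are admissible for `δ`: every blown up point contributes at least
`δ ((∑ w)² - ∑ w²) - κ p`, the sums over the surfaces through the point. -/
def Cost (S : Fin m → Finset (Fin k)) (Bl : Finset (Fin m)) (w : Fin k → ℝ) (z : Fin m → ℝ)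
    (δ : ℝ) (κ : Fin m → ℝ) : Prop :=
  ∀ p ∈ Bl, δ * ((∑ i ∈ S p, w i) ^ 2 - ∑ i ∈ S p, w i ^ 2) - κ p ≤
    (z p + (∑ i ∈ S p, w i) / 2 - 2) ^ 2 + (∑ i ∈ S p, w i ^ 2 - (∑ i ∈ S p, w i) ^ 2 / 4)

/-- the sum of the `w_i w_j C_i . C_j` over the ordered pairs of different surfaces -/
noncomputable def pairSum (B : V →ₗ[ℝ] V →ₗ[ℝ] ℝ) (t : Fin k → V) (w : Fin k → ℝ) : ℝ :=
  ∑ i, ∑ j, if i = j then 0 else w i * w j * B (t i) (t j)

/-- the sum of the `w_i √|C_i²|` -/
noncomputable def star (B : V →ₗ[ℝ] V →ₗ[ℝ] ℝ) (t : Fin k → V) (w : Fin k → ℝ) : ℝ :=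
  ∑ i, w i * √|B (t i) (t i)|

end Pool.Agent.Helper14.BQ.D
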