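import Pool.Agent.Helper14.BQ.MS

/-!
Large arrangements over an arbitrary base: the inequality with a positive contribution of every point.
-/

set_option autoImplicit false

open Finset

namespace Pool.Agent.Helper14.BQ

open Pool.Agent.Helper26.TOR Pool.Agent.Helper94.BQ

variable {k m : ℕ} {V : Type} [AddCommGroup V] [Module ℝ V] {K : V} {g : Fin k → ℕ}

open scoped Classical in
/-- `1` if `i = j` or `i` and `j` meet -/
private noncomputable def cc (S : Fin m → Finset (Fin k)) (i j : Fin k) : ℝ :=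
  if i = j ∨ ∃ p, i ∈ S p ∧ j ∈ S p then 1 else 0

private lemma cc_self (S : Fin m → Finset (Fin k)) (i : Fin k) : cc S i i = 1 := by
  simp [cc]

private lemma cc_symm (S : Fin m → Finset (Fin k)) (i j : Fin k) : cc S i j = cc S j i := by
  unfold cc
  have : (i = j ∨ ∃ p, i ∈ S p ∧ j ∈ S p) ↔ (j = i ∨ ∃ p, j ∈ S p ∧ i ∈ S p) := by
    constructor
    · rintro (h | ⟨p, h1, h2⟩)
      · exact Or.inl h.symm
      · exact Or.inr ⟨p, h2, h1⟩
    · rintro (h | ⟨p, h1, h2⟩)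
      · exact Or.inl h.symm
      · exact Or.inr ⟨p, h2, h1⟩
  simp only [this]

private lemma cc_01 (S : Fin m → Finset (Fin k)) (i j : Fin k) : cc S i j = 0 ∨ cc S i j = 1 := by
  unfold cc
  split_ifs
  · exact Or.inr rfl
  · exact Or.inl rfl

/-- the off diagonal part of the square -/
private lemma cross (s : Finset (Fin k)) (y : Fin k → ℝ) :
    ∑ i ∈ s, ∑ j ∈ s, (if i = j then 0 else y i * y j) = (∑ i ∈ s, y i) ^ 2 - ∑ i ∈ s, y i ^ 2 := by
  have h1 : ∀ i j : Fin k, (if i = j then (0 : ℝ) else y i * y j) =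
      y i * y j - if i = j then y i ^ 2 else 0 := by
    intro i j
    split_ifs with h
    · rw [h]; ring
    · ring
  simp only [h1, Finset.sum_sub_distrib]
  congr 1
  · rw [sq, Finset.sum_mul_sum]
  · refine Finset.sum_congr rfl fun i hi => ?_
    rw [Finset.sum_ite_eq, if_pos hi]

/-- what the pairs in `I` receive from the points -/
private lemma pairs (S : Fin m → Finset (Fin k)) (I : Finset (Fin k)) (w : Fin k → ℝ)
    (hw : ∀ i, 0 ≤ w i) :
    ∑ i ∈ I, ∑ j ∈ I, cc S i j * w i * w j - ∑ i ∈ I, w i ^ 2 ≤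
      ∑ p, ((∑ i ∈ S p, w i) ^ 2 - ∑ i ∈ S p, w i ^ 2) := by
  classical
  have h1 : ∀ i j : Fin k, cc S i j * w i * w j ≤ (if i = j then w i ^ 2 else 0) +
      ∑ p, if i ∈ S p ∧ j ∈ S p then (if i = j then 0 else w i * w j) else 0 := by
    intro i j
    have hn : 0 ≤ w i * w j := mul_nonneg (hw i) (hw j)
    have hs : 0 ≤ ∑ p, if i ∈ S p ∧ j ∈ S p then
        (if i = j then 0 else w i * w j) else 0 := by
      refine Finset.sum_nonneg fun p _ => ?_
      split_ifs <;> simp [hn]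
    by_cases hij : i = j
    · subst hij
      rw [cc_self, if_pos rfl]
      nlinarith
    · rw [if_neg hij, zero_add]
      by_cases hp : ∃ p, i ∈ S p ∧ j ∈ S p
      · obtain ⟨p, hp⟩ := hp
        have h2 : cc S i j = 1 := by
          unfold cc
          rw [if_pos (Or.inr ⟨p, hp⟩)]
        rw [h2, one_mul]
        have h3 : (if i ∈ S p ∧ j ∈ S p then (if i = j then 0 else w i * w j) else 0) ≤
            ∑ p, if i ∈ S p ∧ j ∈ S p then (if i = j then 0 else w i * w j) else 0 :=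
          Finset.single_le_sum (f := fun p => if i ∈ S p ∧ j ∈ S p then
            (if i = j then 0 else w i * w j) else 0)
            (fun q _ => by split_ifs <;> simp [hn]) (Finset.mem_univ p)
        rw [if_pos hp] at h3
        simp only [if_neg hij] at h3 ⊢
        exact h3
      · have h2 : cc S i j = 0 := by
          unfold cc
          rw [if_neg (by rintro (h | h); exacts [hij h, hp h])]
        rw [h2, zero_mul, zero_mul]
        exact hs
  have h2 : ∑ i ∈ I, ∑ j ∈ I, cc S i j * w i * w j ≤ ∑ i ∈ I, w i ^ 2 +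
      ∑ p, ∑ i ∈ I, ∑ j ∈ I,
        (if i ∈ S p ∧ j ∈ S p then (if i = j then 0 else w i * w j) else 0) := by
    refine (Finset.sum_le_sum fun i _ => Finset.sum_le_sum fun j _ => h1 i j).trans ?_
    simp only [Finset.sum_add_distrib]
    have e1 : ∑ i ∈ I, ∑ j ∈ I, (if i = j then w i ^ 2 else 0) = ∑ i ∈ I, w i ^ 2 :=
      Finset.sum_congr rfl fun i hi => by rw [Finset.sum_ite_eq, if_pos hi]
    have e2 : ∑ i ∈ I, ∑ j ∈ I, ∑ p, (if i ∈ S p ∧ j ∈ S p then
        (if i = j then 0 else w i * w j) else 0) = ∑ p, ∑ i ∈ I, ∑ j ∈ I,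
        (if i ∈ S p ∧ j ∈ S p then (if i = j then 0 else w i * w j) else 0) := by
      rw [Finset.sum_congr rfl fun i _ => Finset.sum_comm, Finset.sum_comm]
    rw [e1, e2]
  have h3 : ∀ p, ∑ i ∈ I, ∑ j ∈ I,
      (if i ∈ S p ∧ j ∈ S p then (if i = j then 0 else w i * w j) else 0) ≤
      (∑ i ∈ S p, w i) ^ 2 - ∑ i ∈ S p, w i ^ 2 := by
    intro p
    have e : ∀ i j, (if i ∈ S p ∧ j ∈ S p then (if i = j then 0 else w i * w j) else 0) =
        if i ∈ S p then (if j ∈ S p then (if i = j then 0 else w i * w j) else 0) else 0 := by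
      intro i j
      by_cases hi : i ∈ S p <;> by_cases hj : j ∈ S p <;> simp [hi, hj]
    simp only [e]
    rw [← cross]
    have hn : ∀ i j : Fin k, 0 ≤ (if i = j then (0 : ℝ) else w i * w j) := by
      intro i j
      split_ifs
      · exact le_refl 0
      · exact mul_nonneg (hw i) (hw j)
    calc ∑ i ∈ I, ∑ j ∈ I, (if i ∈ S p then (if j ∈ S p then (if i = j then 0 else w i * w j)
            else 0) else 0)
        ≤ ∑ i, ∑ j, (if i ∈ S p then (if j ∈ S p then (if i = j then 0 else w i * w j)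
            else 0) else 0) := by
          have hn2 : ∀ i j : Fin k, 0 ≤ (if i ∈ S p then (if j ∈ S p then
              (if i = j then (0 : ℝ) else w i * w j) else 0) else 0) := by
            intro i j
            by_cases hi : i ∈ S p
            · by_cases hj : j ∈ S p
              · rw [if_pos hi, if_pos hj]
                exact hn i j
              · rw [if_pos hi, if_neg hj]
            · rw [if_neg hi]
          refine (Finset.sum_le_sum fun i _ =>
            Finset.sum_le_univ_sum_of_nonneg fun j => hn2 i j).trans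
            (Finset.sum_le_univ_sum_of_nonneg fun i => Finset.sum_nonneg fun j _ => hn2 i j)
      _ = ∑ i ∈ S p, ∑ j ∈ S p, (if i = j then 0 else w i * w j) := by
          rw [← Finset.sum_filter_add_sum_filter_not univ (fun i => i ∈ S p)]
          have z1 : ∑ i with i ∉ S p, ∑ j, (if i ∈ S p then (if j ∈ S p then
              (if i = j then (0 : ℝ) else w i * w j) else 0) else 0) = 0 :=
            Finset.sum_eq_zero fun i hi => by
              rw [Finset.mem_filter] at hi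
              simp [hi.2]
          rw [z1, add_zero]
          have z2 : (univ.filter fun i => i ∈ S p) = S p := by
            ext i
            simp
          rw [z2]
          refine Finset.sum_congr rfl fun i hi => ?_
          simp only [if_pos hi]
          rw [← Finset.sum_filter, z2]
  have h4 := Finset.sum_le_sum fun p (_ : p ∈ (univ : Finset (Fin m))) => h3 p
  linarith

/-- The costs `κ p` are admissible for `δ`: every blown up point contributes at least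
`δ ((∑ w)² - ∑ w²) - κ p`, the sums over the surfaces through the point. -/
def Cost (S : Fin m → Finset (Fin k)) (Bl : Finset (Fin m)) (w : Fin k → ℝ) (z : Fin m → ℝ)
    (δ : ℝ) (κ : Fin m → ℝ) : Prop :=
  ∀ p ∈ Bl, δ * ((∑ i ∈ S p, w i) ^ 2 - ∑ i ∈ S p, w i ^ 2) - κ p ≤
    (z p + (∑ i ∈ S p, w i) / 2 - 2) ^ 2 + (∑ i ∈ S p, w i ^ 2 - (∑ i ∈ S p, w i) ^ 2 / 4)

/-- Pairwise orthogonal classes of nonzero square are independent. -/
theorem card_le_rank {B : V →ₗ[ℝ] V →ₗ[ℝ] ℝ} {t : Fin k → V} {N : ℕ}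
    (hN : Module.finrank ℝ (Submodule.span ℝ (Set.range t)) ≤ N) (J : Finset (Fin k))
    (h1 : ∀ i ∈ J, B (t i) (t i) ≠ 0) (h2 : ∀ i ∈ J, ∀ j ∈ J, i ≠ j → B (t i) (t j) = 0) :
    J.card ≤ N := by
  classical
  have hli : LinearIndependent ℝ (fun i : J => t i) := by
    rw [linearIndependent_iff']
    intro s c hc i hi
    have e1 : B (t i) (∑ j ∈ s, c j • t j) = 0 := by
      rw [hc, map_zero]
    rw [map_sum, Finset.sum_eq_single i] at e1
    · rw [map_smul, smul_eq_mul] at e1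
      exact (mul_eq_zero.1 e1).resolve_right (h1 i i.2)
    · intro j _ hj
      rw [map_smul, smul_eq_mul, h2 i i.2 j j.2 (fun h => hj (Subtype.ext h).symm), mul_zero]
    · intro h
      exact absurd hi h
  have e2 := finrank_span_eq_card hli
  rw [Fintype.card_coe] at e2
  rw [← e2]
  have : Module.Finite ℝ (Submodule.span ℝ (Set.range t)) :=
    FiniteDimensional.span_of_finite ℝ (Set.finite_range t)
  refine le_trans (Submodule.finrank_mono (Submodule.span_mono ?_)) hN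
  rintro _ ⟨i, rfl⟩
  exact ⟨i, rfl⟩

/-- **Main inequality.** `I` is a set of surfaces of which at most `N` are pairwise disjoint. -/
theorem main_delta {B : V →ₗ[ℝ] V →ₗ[ℝ] ℝ} (hB : ∀ x y, B x y = B y x)
    {S : Fin m → Finset (Fin k)} {t : Fin k → V} (h : Arr B K S g t) (e : ℝ) (Bl : Finset (Fin m))
    (hBl : ∀ p ∉ Bl, (S p).card = 2) (w : Fin k → ℝ) (hw : ∀ i, 0 ≤ w i) (z : Fin m → ℝ)
    {δ : ℝ} (hδ0 : 0 ≤ δ) (hδ : δ ≤ 1 / 2) {κ : Fin m → ℝ} (hc : Cost S Bl w z δ κ)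
    {N : ℕ} (hN1 : 1 ≤ N) (I : Finset (Fin k))
    (hI : ∀ J ⊆ I, (∀ i ∈ J, ∀ j ∈ J, i ≠ j → B (t i) (t j) = 0) → J.card ≤ N) :
    cOneSq S (B (K + ∑ i, w i • t i) (K + ∑ i, w i • t i)) Bl w z + (3 * e - B K K) +
      curv B g t w + δ * ((∑ i ∈ I, w i) ^ 2 / N - ∑ i ∈ I, w i ^ 2) ≤
        3 * cTwo S e g Bl w z + ∑ p ∈ Bl, κ p := by
  have hgap := gap hB h e Bl hBl w z
  have hms := motzkin_straus (cc S) (cc_self S) (cc_symm S) (cc_01 S) N I.card
    I rfl (by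
    intro J hJ hJ0
    refine hI J hJ fun i hi j hj hij => ?_
    rw [h.inter i j hij]
    have h0 := hJ0 i hi j hj hij
    have h1 : num S i j = 0 := by
      unfold num
      rw [Finset.card_eq_zero, Finset.filter_eq_empty_iff]
      rintro p _ hp
      have h2 : cc S i j = 1 := by
        unfold cc
        rw [if_pos (Or.inr ⟨p, hp⟩)]
      rw [h2] at h0
      exact one_ne_zero h0
    rw [h1, Nat.cast_zero]) w hw
  have hpairs := pairs S I w hw
  have hNpos : (0 : ℝ) < N := by exact_mod_cast hN1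
  have hms2 : (∑ i ∈ I, w i) ^ 2 / N ≤
      ∑ a ∈ I, ∑ b ∈ I, cc S a b * w a * w b := by
    rw [div_le_iff₀ hNpos]
    linarith
  have split : ∀ f : Fin m → ℝ, ∑ p, f p = ∑ p ∈ Bl, f p + ∑ p ∈ univ \ Bl, f p := by
    intro f
    rw [← Finset.compl_eq_univ_sdiff, Finset.sum_add_sum_compl]
  have hpt : δ * ∑ p, ((∑ i ∈ S p, w i) ^ 2 - ∑ i ∈ S p, w i ^ 2) ≤ rest S Bl w z +
      (3 * mass S Bl w - ∑ p, ((∑ i ∈ S p, w i) ^ 2 - ∑ i ∈ S p, w i ^ 2)) / 4 +
      ∑ p ∈ Bl, κ p := by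
    rw [split fun p => _ - _]
    unfold rest mass
    have h1 : ∑ p ∈ Bl, δ * ((∑ i ∈ S p, w i) ^ 2 - ∑ i ∈ S p, w i ^ 2) ≤
        ∑ p ∈ Bl, ((z p + (∑ i ∈ S p, w i) / 2 - 2) ^ 2 +
        (3 * ∑ i ∈ S p, w i ^ 2 - ((∑ i ∈ S p, w i) ^ 2 - ∑ i ∈ S p, w i ^ 2)) / 4 + κ p) := by
      refine Finset.sum_le_sum fun p hp => ?_
      have := hc p hp
      linarith
    have h2 : ∑ p ∈ univ \ Bl, δ * ((∑ i ∈ S p, w i) ^ 2 - ∑ i ∈ S p, w i ^ 2) ≤
        ∑ p ∈ univ \ Bl,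
        (3 * (2 * ∏ i ∈ S p, w i) - ((∑ i ∈ S p, w i) ^ 2 - ∑ i ∈ S p, w i ^ 2)) / 4 := by
      refine Finset.sum_le_sum fun p hp => ?_
      have hp2 : p ∉ Bl := (Finset.mem_sdiff.mp hp).2
      obtain ⟨a, b, hab, hS⟩ := Finset.card_eq_two.mp (hBl p hp2)
      rw [hS, Finset.prod_pair hab, Finset.sum_pair hab, Finset.sum_pair hab]
      have h3 := mul_nonneg (hw a) (hw b)
      have h4 := mul_le_mul_of_nonneg_right hδ h3
      linarith
    simp only [Finset.sum_add_distrib, Finset.sum_sub_distrib, ← Finset.mul_sum, ← Finset.sum_div]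
      at h1 h2 ⊢
    linarith
  have h9 : δ * ((∑ i ∈ I, w i) ^ 2 / N - ∑ i ∈ I, w i ^ 2) ≤
      δ * ∑ p, ((∑ i ∈ S p, w i) ^ 2 - ∑ i ∈ S p, w i ^ 2) :=
    mul_le_mul_of_nonneg_left (by linarith) hδ0
  linarith

/-- All real `z`: a point of multiplicity `k` costs at most `((k - 4) + 4 δ (k - 1)) / (4 k)` times the
square of the sum of the weights. -/
theorem cost_all (S : Fin m → Finset (Fin k)) (Bl : Finset (Fin m)) (w : Fin k → ℝ)
    (z : Fin m → ℝ) {δ : ℝ} (hδ : 0 ≤ δ) : Cost S Bl w z δ fun p =>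
      (((S p).card - 4) + 4 * δ * ((S p).card - 1)) / (4 * (S p).card) * (∑ i ∈ S p, w i) ^ 2 := by
  intro p _
  have h2 : (∑ i ∈ S p, w i) ^ 2 ≤ (S p).card * ∑ i ∈ S p, w i ^ 2 :=
    sq_sum_le_card_mul_sum_sq
  have h4 : 0 ≤ ∑ i ∈ S p, w i ^ 2 := Finset.sum_nonneg fun i _ => sq_nonneg _
  have h5 := sq_nonneg (z p + (∑ i ∈ S p, w i) / 2 - 2)
  rcases Nat.eq_zero_or_pos (S p).card with h0 | h0
  · have h1 : S p = ∅ := Finset.card_eq_zero.1 h0
    simp only [h1, Finset.sum_empty, Finset.card_empty] at h5 ⊢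
    norm_num at h5 ⊢
    exact h5
  · have h1 : (0 : ℝ) < (S p).card := by exact_mod_cast h0
    have h6 : (∑ i ∈ S p, w i) ^ 2 / (S p).card ≤ ∑ i ∈ S p, w i ^ 2 := by
      rw [div_le_iff₀ h1]
      linarith
    have h7 : (((S p).card - 4) + 4 * δ * ((S p).card - 1)) / (4 * (S p).card) *
        (∑ i ∈ S p, w i) ^ 2 = (1 / 4 + δ) * (∑ i ∈ S p, w i) ^ 2 -
          (1 + δ) * ((∑ i ∈ S p, w i) ^ 2 / (S p).card) := by
      field_simp
      ring
    have h8 := mul_le_mul_of_nonneg_left h6 (show 0 ≤ 1 + δ by linarith)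
    show δ * ((∑ i ∈ S p, w i) ^ 2 - ∑ i ∈ S p, w i ^ 2) -
      (((S p).card - 4) + 4 * δ * ((S p).card - 1)) / (4 * (S p).card) *
        (∑ i ∈ S p, w i) ^ 2 ≤ _
    rw [h7]
    linarith

/-- `z ≥ 0`: the cost with a parameter `θ` in `[0, 1]`, which is linear in the weights for `δ = 0`. -/
theorem cost_theta (S : Fin m → Finset (Fin k)) (Bl : Finset (Fin m)) (w : Fin k → ℝ)
    (hw : ∀ i, 0 ≤ w i) (z : Fin m → ℝ) (hz : ∀ p ∈ Bl, 0 ≤ z p) (θ : Fin m → ℝ)
    (hθ : ∀ p, 0 ≤ θ p ∧ θ p ≤ 1) (δ : ℝ) : Cost S Bl w z δ fun p =>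
      δ * ((∑ i ∈ S p, w i) ^ 2 - ∑ i ∈ S p, w i ^ 2) +
        ∑ i ∈ S p, w i * (2 - 2 * θ p + ((S p).card * θ p ^ 2 / 4 - 1) * w i) := by
  intro p hp
  have hS : 0 ≤ ∑ i ∈ S p, w i := Finset.sum_nonneg fun i _ => hw i
  have h2 : (∑ i ∈ S p, w i) ^ 2 ≤ (S p).card * ∑ i ∈ S p, w i ^ 2 :=
    sq_sum_le_card_mul_sum_sq
  have e1 : ∑ i ∈ S p, w i * (2 - 2 * θ p + ((S p).card * θ p ^ 2 / 4 - 1) * w i) =
      (2 - 2 * θ p) * ∑ i ∈ S p, w i +
        ((S p).card * θ p ^ 2 / 4 - 1) * ∑ i ∈ S p, w i ^ 2 := by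
    rw [Finset.mul_sum, Finset.mul_sum, ← Finset.sum_add_distrib]
    exact Finset.sum_congr rfl fun i _ => by ring
  show δ * ((∑ i ∈ S p, w i) ^ 2 - ∑ i ∈ S p, w i ^ 2) -
    (δ * ((∑ i ∈ S p, w i) ^ 2 - ∑ i ∈ S p, w i ^ 2) +
      ∑ i ∈ S p, w i * (2 - 2 * θ p + ((S p).card * θ p ^ 2 / 4 - 1) * w i)) ≤ _
  rw [e1]
  have hzp := hz p hp
  obtain ⟨ht0, ht1⟩ := hθ p
  have h3 : 0 ≤ z p * (∑ i ∈ S p, w i) * (1 - θ p) :=
    mul_nonneg (mul_nonneg hzp hS) (by linarith)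
  have h4 : θ p ^ 2 * (∑ i ∈ S p, w i) ^ 2 ≤
      θ p ^ 2 * ((S p).card * ∑ i ∈ S p, w i ^ 2) :=
    mul_le_mul_of_nonneg_left h2 (sq_nonneg _)
  nlinarith [sq_nonneg (2 - z p - θ p * (∑ i ∈ S p, w i) / 2)]

/-- Equal orders `n` along all surfaces and exceptional spheres, points of multiplicity at most `r`:
`δ = ((n + 1)² - 2 r (n - 1)) / (r (r - 1) (n - 1)²)`. -/
theorem cost_n (S : Fin m → Finset (Fin k)) (Bl : Finset (Fin m)) (n r : ℕ) (hn : 2 ≤ n)
    (hr : 2 ≤ r) (hnr : 2 * r * (n - 1) ≤ (n + 1) ^ 2) (h3 : ∀ p ∈ Bl, (S p).card ≤ r) :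
    Cost S Bl (fun _ => 1 - 1 / n) (fun _ => 1 - 1 / n)
      ((((n : ℝ) + 1) ^ 2 - 2 * r * (n - 1)) / (r * (r - 1) * ((n : ℝ) - 1) ^ 2)) 0 := by
  intro p hp
  rw [Pi.zero_apply, sub_zero]
  have hn0 : (2 : ℝ) ≤ n := by exact_mod_cast hn
  have hr0 : (2 : ℝ) ≤ r := by exact_mod_cast hr
  have hnr0 : 2 * (r : ℝ) * ((n : ℝ) - 1) ≤ ((n : ℝ) + 1) ^ 2 := by
    have h1 : (((2 * r * (n - 1) : ℕ)) : ℝ) ≤ (((n + 1) ^ 2 : ℕ) : ℝ) := by exact_mod_cast hnr
    push_cast [Nat.cast_sub (show 1 ≤ n by omega)] at h1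
    linarith
  have hcr : ((S p).card : ℝ) ≤ r := by exact_mod_cast h3 p hp
  set c : ℝ := ((S p).card : ℝ) with hcdef
  have hc0 : 0 ≤ c := Nat.cast_nonneg _
  have e1 : ∑ _i ∈ S p, (1 - 1 / (n : ℝ)) = c * (1 - 1 / n) := by
    rw [Finset.sum_const, nsmul_eq_mul]
  have e2 : ∑ _i ∈ S p, (1 - 1 / (n : ℝ)) ^ 2 = c * (1 - 1 / n) ^ 2 := by
    rw [Finset.sum_const, nsmul_eq_mul]
  simp only [e1, e2]
  have hnpos : (0 : ℝ) < n := by linarith
  have hx : (1 - 1 / (n : ℝ)) = (n - 1) / n := by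
    field_simp
  rw [hx]
  have hA : 0 ≤ ((n : ℝ) + 1) ^ 2 - 2 * r * (n - 1) := by linarith
  have hD : 0 < (r : ℝ) * (r - 1) * ((n : ℝ) - 1) ^ 2 := by
    have : 0 < (n : ℝ) - 1 := by linarith
    have : 0 < (r : ℝ) - 1 := by linarith
    positivity
  rcases Nat.eq_zero_or_pos (S p).card with h0 | h0
  · have : c = 0 := by
      rw [hcdef, h0, Nat.cast_zero]
    rw [this]
    have : 0 ≤ ((n - 1 : ℝ) / n + 0 * ((n - 1) / n) / 2 - 2) ^ 2 := sq_nonneg _
    nlinarith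
  · have hc1 : 1 ≤ c := by
      rw [hcdef]
      exact_mod_cast h0
    have k1 : (c * ((n - 1) / n)) ^ 2 - c * ((n - 1) / n) ^ 2 =
        c * (c - 1) * ((n - 1) ^ 2) / n ^ 2 := by
      field_simp
      try ring
    have k2 : ((n - 1 : ℝ) / n + c * ((n - 1) / n) / 2 - 2) ^ 2 +
        (c * ((n - 1) / n) ^ 2 - (c * ((n - 1) / n)) ^ 2 / 4) =
        ((n + 1) ^ 2 - 2 * c * (n - 1)) / n ^ 2 := by
      field_simp
      ring
    rw [k1, k2]
    have k3 : (((n : ℝ) + 1) ^ 2 - 2 * r * (n - 1)) / (r * (r - 1) * ((n : ℝ) - 1) ^ 2) *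
        (c * (c - 1) * ((n - 1) ^ 2) / n ^ 2) =
        ((((n : ℝ) + 1) ^ 2 - 2 * r * (n - 1)) * ((c * (c - 1)) / (r * (r - 1)))) / n ^ 2 := by
      have h1 : (n : ℝ) - 1 ≠ 0 := by
        intro h
        linarith
      have h2 : (r : ℝ) - 1 ≠ 0 := by
        intro h
        linarith
      have h3 : (r : ℝ) ≠ 0 := by
        intro h
        linarith
      field_simp
    rw [k3]
    refine div_le_div_of_nonneg_right ?_ (by positivity)
    have k4 : (c * (c - 1)) / (r * (r - 1)) ≤ 1 := by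
      rw [div_le_one (by nlinarith)]
      nlinarith
    have k5 : 0 ≤ (c * (c - 1)) / ((r : ℝ) * (r - 1)) := by
      refine div_nonneg (mul_nonneg hc0 (by linarith)) (by nlinarith)
    have k6 : (((n : ℝ) + 1) ^ 2 - 2 * r * (n - 1)) * ((c * (c - 1)) / (r * (r - 1))) ≤
        ((n : ℝ) + 1) ^ 2 - 2 * r * (n - 1) := by
      nlinarith
    have k7 : 2 * c * ((n : ℝ) - 1) ≤ 2 * r * (n - 1) := by
      have : 0 ≤ (n : ℝ) - 1 := by linarith
      nlinarith
    linarith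

end Pool.Agent.Helper14.BQ
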