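import Pool.Agent.Helper94.BQ.Arr

/-!
Weighted Turán inequality (Motzkin and Straus) and pairwise disjoint surfaces of negative square.
-/

set_option autoImplicit false

open Finset

namespace Pool.Agent.Helper14.BQ

/-- Motzkin and Straus: if the graph with the `0`-`1` adjacency `c` has no independent subset of `I` with more
than `N` elements, then `(∑ w)² ≤ N ∑ c w w`. -/
theorem motzkin_straus {ι : Type} [DecidableEq ι] (c : ι → ι → ℝ) (hc1 : ∀ a, c a a = 1)
    (hsym : ∀ a b, c a b = c b a) (h01 : ∀ a b, c a b = 0 ∨ c a b = 1) (N : ℕ) (n : ℕ) :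
    ∀ (I : Finset ι), I.card = n → (∀ J ⊆ I, (∀ a ∈ J, ∀ b ∈ J, a ≠ b → c a b = 0) → J.card ≤ N) →
      ∀ w : ι → ℝ, (∀ a, 0 ≤ w a) →
        (∑ a ∈ I, w a) ^ 2 ≤ N * ∑ a ∈ I, ∑ b ∈ I, c a b * w a * w b := by
  have hc0 : ∀ a b, 0 ≤ c a b := fun a b => by
    rcases h01 a b with h | h <;> rw [h] <;> norm_num
  induction n with
  | zero =>
    intro I hI _ w _
    rw [Finset.card_eq_zero.1 hI]
    simp
  | succ n ih =>
    intro I hI hind w hw
    by_cases hadj : ∀ a ∈ I, ∀ b ∈ I, a ≠ b → c a b = 0
    · have h1 : (I.card : ℝ) ≤ N := by exact_mod_cast hind I (Finset.Subset.refl _) hadj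
      have h2 : (∑ a ∈ I, w a) ^ 2 ≤ I.card * ∑ a ∈ I, w a ^ 2 := sq_sum_le_card_mul_sum_sq
      have h3 : ∑ a ∈ I, w a ^ 2 ≤ ∑ a ∈ I, ∑ b ∈ I, c a b * w a * w b := by
        refine Finset.sum_le_sum fun a ha => ?_
        have h4 : c a a * w a * w a ≤ ∑ b ∈ I, c a b * w a * w b :=
          Finset.single_le_sum (f := fun b => c a b * w a * w b)
            (fun b _ => mul_nonneg (mul_nonneg (hc0 a b) (hw a)) (hw b)) ha
        rw [hc1] at h4
        nlinarith
      have h5 : 0 ≤ ∑ a ∈ I, w a ^ 2 := Finset.sum_nonneg fun a _ => sq_nonneg _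
      nlinarith [mul_le_mul_of_nonneg_right h1 h5,
        mul_le_mul_of_nonneg_left h3 (Nat.cast_nonneg (α := ℝ) N)]
    · push Not at hadj
      obtain ⟨a₀, ha₀, b₀, hb₀, hne₀, hcab₀⟩ := hadj
      -- the general step
      have step : ∀ i ∈ I, ∀ j ∈ I, i ≠ j → c i j = 1 →
          ∑ b ∈ (I.erase j).erase i, c i b * w b ≤ ∑ b ∈ (I.erase j).erase i, c j b * w b →
          (∑ a ∈ I, w a) ^ 2 ≤ N * ∑ a ∈ I, ∑ b ∈ I, c a b * w a * w b := by
        intro i hi j hj hij hcij hle
        set I0 := (I.erase j).erase i with hI0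
        have hiE : i ∈ I.erase j := Finset.mem_erase.2 ⟨hij, hi⟩
        have hcard : (I.erase j).card = n := by
          rw [Finset.card_erase_of_mem hj, hI]
          rfl
        set v : ι → ℝ := fun a => if a = i then w i + w j else w a with hv
        have hvi : v i = w i + w j := by simp [hv]
        have hv0 : ∀ a ∈ I0, v a = w a := by
          intro a ha
          have : a ≠ i := (Finset.mem_erase.1 ha).1
          simp [hv, this]
        have hvn : ∀ a, 0 ≤ v a := by
          intro a
          by_cases h : a = i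
          · rw [h, hvi]
            exact add_nonneg (hw i) (hw j)
          · simp only [hv, if_neg h]
            exact hw a
        have key := ih (I.erase j) hcard
          (fun J hJ hJ2 => hind J (hJ.trans (Finset.erase_subset _ _)) hJ2) v hvn
        -- sums over I.erase j of v
        have sE : ∀ f : ι → ℝ, ∑ a ∈ I.erase j, f a = f i + ∑ a ∈ I0, f a := fun f =>
          (Finset.add_sum_erase _ f hiE).symm
        have sI : ∀ f : ι → ℝ, ∑ a ∈ I, f a = f j + (f i + ∑ a ∈ I0, f a) := fun f => by
          rw [← Finset.add_sum_erase _ f hj, sE]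
        have e1 : ∑ a ∈ I.erase j, v a = ∑ a ∈ I, w a := by
          rw [sE, sI, hvi, Finset.sum_congr rfl hv0]
          ring
        have g1 : ∀ (x : ℝ) (a : ι), ∑ b ∈ I0, c a b * x * w b = x * ∑ b ∈ I0, c a b * w b := by
          intro x a
          rw [Finset.mul_sum]
          exact Finset.sum_congr rfl fun b _ => by ring
        have g2 : ∀ (x : ℝ) (a : ι), ∑ b ∈ I0, c b a * w b * x = x * ∑ b ∈ I0, c a b * w b := by
          intro x a
          rw [Finset.mul_sum]
          exact Finset.sum_congr rfl fun b _ => by rw [hsym b a]; ring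
        have e2 : ∑ a ∈ I.erase j, ∑ b ∈ I.erase j, c a b * v a * v b =
            (w i + w j) ^ 2 + 2 * (w i + w j) * ∑ b ∈ I0, c i b * w b +
              ∑ a ∈ I0, ∑ b ∈ I0, c a b * w a * w b := by
          have h1 : ∀ a, ∑ b ∈ I.erase j, c a b * v a * v b =
              c a i * v a * v i + ∑ b ∈ I0, c a b * v a * w b := by
            intro a
            rw [sE]
            congr 1
            exact Finset.sum_congr rfl fun b hb => by rw [hv0 b hb]
          simp only [h1]
          rw [sE, Finset.sum_add_distrib, hvi, hc1, g1]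
          have h2 : ∑ a ∈ I0, c a i * v a * (w i + w j) =
              (w i + w j) * ∑ b ∈ I0, c i b * w b := by
            rw [← g2]
            exact Finset.sum_congr rfl fun a ha => by rw [hv0 a ha]
          have h3 : ∑ a ∈ I0, ∑ b ∈ I0, c a b * v a * w b =
              ∑ a ∈ I0, ∑ b ∈ I0, c a b * w a * w b :=
            Finset.sum_congr rfl fun a ha => by rw [hv0 a ha]
          rw [h2, h3]
          ring
        have e3 : ∑ a ∈ I, ∑ b ∈ I, c a b * w a * w b =
            (w i + w j) ^ 2 + 2 * w i * ∑ b ∈ I0, c i b * w b + 2 * w j * ∑ b ∈ I0, c j b * w b +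
              ∑ a ∈ I0, ∑ b ∈ I0, c a b * w a * w b := by
          have h1 : ∀ a, ∑ b ∈ I, c a b * w a * w b =
              c a j * w a * w j + (c a i * w a * w i + ∑ b ∈ I0, c a b * w a * w b) := fun a => sI _
          simp only [h1]
          rw [sI, Finset.sum_add_distrib, Finset.sum_add_distrib, g1, g1, g2, g2, hc1, hc1,
            hsym j i, hcij]
          ring
        rw [e1, e2] at key
        refine key.trans (mul_le_mul_of_nonneg_left ?_ (Nat.cast_nonneg _))
        rw [e3]
        nlinarith [mul_le_mul_of_nonneg_left hle (hw j)]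
      have h1 : c a₀ b₀ = 1 := (h01 a₀ b₀).resolve_left hcab₀
      rcases le_total (∑ b ∈ (I.erase b₀).erase a₀, c a₀ b * w b)
        (∑ b ∈ (I.erase b₀).erase a₀, c b₀ b * w b) with h | h
      · exact step a₀ ha₀ b₀ hb₀ hne₀ h1 h
      · refine step b₀ hb₀ a₀ ha₀ hne₀.symm (by rw [hsym]; exact h1) ?_
        rw [Finset.erase_right_comm]
        exact h

open Pool.Agent.Helper26.TOR Pool.Agent.Helper94.BQ

variable {k m : ℕ} {V : Type} [AddCommGroup V] [Module ℝ V]

/-- pairwise orthogonal classes of negative square: at most as many as the negative index -/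
theorem card_le_index {B : V →ₗ[ℝ] V →ₗ[ℝ] ℝ} {t : Fin k → V} {N : ℕ}
    (hN : NegLE B (Submodule.span ℝ (Set.range t)) N) (J : Finset (Fin k))
    (hneg : ∀ i ∈ J, B (t i) (t i) < 0) (horth : ∀ i ∈ J, ∀ j ∈ J, i ≠ j → B (t i) (t j) = 0) :
    J.card ≤ N := by
  have hB : ∀ (a : J → ℝ) (j : J), B (∑ i, a i • t i) (t j) = a j * B (t j) (t j) := by
    intro a j
    rw [map_sum, LinearMap.sum_apply, Finset.sum_eq_single j]
    · rw [map_smul, LinearMap.smul_apply, smul_eq_mul]
    · intro i _ hij
      rw [map_smul, LinearMap.smul_apply, smul_eq_mul,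
        horth i i.2 j j.2 (fun h => hij (Subtype.ext h)), mul_zero]
    · intro h
      exact absurd (Finset.mem_univ _) h
  have hli : LinearIndependent ℝ (fun i : J => t i) := by
    rw [Fintype.linearIndependent_iff]
    intro a ha j
    have h1 := hB a j
    rw [ha, map_zero, LinearMap.zero_apply] at h1
    rcases mul_eq_zero.1 h1.symm with h | h
    · exact h
    · exact absurd h (hneg j j.2).ne
  have h2 : ∀ (a : J → ℝ), B (∑ i, a i • t i) (∑ i, a i • t i) = ∑ j : J, a j ^ 2 * B (t j) (t j) := by
    intro a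
    rw [map_sum]
    refine Finset.sum_congr rfl fun j _ => ?_
    rw [map_smul, smul_eq_mul, hB]
    ring
  have hW := hN (Submodule.span ℝ (Set.range fun i : J => t i))
    (Submodule.span_mono (by rintro _ ⟨i, rfl⟩; exact ⟨i, rfl⟩)) (by
      intro x hx hx0
      obtain ⟨a, rfl⟩ := (Submodule.mem_span_range_iff_exists_fun ℝ).1 hx
      rw [h2]
      have hex : ∃ j : J, a j ≠ 0 := by
        by_contra hno
        push Not at hno
        exact hx0 (by simp [hno])
      obtain ⟨j, hj⟩ := hex
      refine Finset.sum_neg' (fun i _ => mul_nonpos_of_nonneg_of_nonpos (sq_nonneg _)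
        (hneg i i.2).le) ⟨j, Finset.mem_univ _, mul_neg_of_pos_of_neg (by positivity) (hneg j j.2)⟩)
  rw [finrank_span_eq_card hli, Fintype.card_coe] at hW
  exact hW

end Pool.Agent.Helper14.BQ
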