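import Pool.Agent.Helper14.BQ.Theta
import Pool.Agent.Helper14.BQ.MS

/-!
Large arrangements over an arbitrary base.
-/

set_option autoImplicit false

open Finset

namespace Pool.Agent.Helper14.BQ

open Pool.Agent.Helper26.TOR Pool.Agent.Helper94.BQ

variable {k m : ℕ} {V : Type} [AddCommGroup V] [Module ℝ V] {K : V} {g : Fin k → ℕ}

open scoped Classical in
/-- `1` if `i = j` or `i` and `j` have a common point of multiplicity at most three -/
private noncomputable def cc (S : Fin m → Finset (Fin k)) (i j : Fin k) : ℝ :=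
  if i = j ∨ ∃ p, i ∈ S p ∧ j ∈ S p ∧ (S p).card ≤ 3 then 1 else 0

private lemma cc_self (S : Fin m → Finset (Fin k)) (i : Fin k) : cc S i i = 1 := by
  simp [cc]

private lemma cc_symm (S : Fin m → Finset (Fin k)) (i j : Fin k) : cc S i j = cc S j i := by
  unfold cc
  have : (i = j ∨ ∃ p, i ∈ S p ∧ j ∈ S p ∧ (S p).card ≤ 3) ↔
      (j = i ∨ ∃ p, j ∈ S p ∧ i ∈ S p ∧ (S p).card ≤ 3) := by
    constructor
    · rintro (h | ⟨p, h1, h2, h3⟩)
      · exact Or.inl h.symm
      · exact Or.inr ⟨p, h2, h1, h3⟩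
    · rintro (h | ⟨p, h1, h2, h3⟩)
      · exact Or.inl h.symm
      · exact Or.inr ⟨p, h2, h1, h3⟩
  simp only [this]

private lemma cc_01 (S : Fin m → Finset (Fin k)) (i j : Fin k) : cc S i j = 0 ∨ cc S i j = 1 := by
  unfold cc
  split_ifs
  · exact Or.inr rfl
  · exact Or.inl rfl

/-- the off diagonal part of the square -/
private lemma cross (s : Finset (Fin k)) (y : Fin k → ℝ) :
    ∑ i ∈ s, ∑ j ∈ s, (if i = j then 0 else y i * y j) = (∑ i ∈ s, y i) ^ 2 - ∑ i ∈ s, y i ^ 2 := by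
  have h1 : ∀ i j : Fin k, (if i = j then (0 : ℝ) else y i * y j) =
      y i * y j - if i = j then y i ^ 2 else 0 := by
    intro i j
    split_ifs with h
    · rw [h]; ring
    · ring
  simp only [h1, Finset.sum_sub_distrib]
  congr 1
  · rw [sq, Finset.sum_mul_sum]
  · refine Finset.sum_congr rfl fun i hi => ?_
    rw [Finset.sum_ite_eq, if_pos hi]

/-- what the pairs in `I` receive from the points of multiplicity at most three -/
private lemma pairs (S : Fin m → Finset (Fin k)) (I : Finset (Fin k)) (w : Fin k → ℝ)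
    (hw : ∀ i, 0 ≤ w i) :
    ∑ i ∈ I, ∑ j ∈ I, cc S i j * w i * w j - ∑ i ∈ I, w i ^ 2 ≤
      ∑ p, if (S p).card ≤ 3 then (∑ i ∈ S p, w i) ^ 2 - ∑ i ∈ S p, w i ^ 2 else 0 := by
  classical
  have h1 : ∀ i j : Fin k, cc S i j * w i * w j ≤ (if i = j then w i ^ 2 else 0) +
      ∑ p, if i ∈ S p ∧ j ∈ S p ∧ (S p).card ≤ 3 then (if i = j then 0 else w i * w j) else 0 := by
    intro i j
    have hn : 0 ≤ w i * w j := mul_nonneg (hw i) (hw j)
    have hs : 0 ≤ ∑ p, if i ∈ S p ∧ j ∈ S p ∧ (S p).card ≤ 3 then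
        (if i = j then 0 else w i * w j) else 0 := by
      refine Finset.sum_nonneg fun p _ => ?_
      split_ifs <;> simp [hn]
    by_cases hij : i = j
    · subst hij
      rw [cc_self, if_pos rfl]
      nlinarith
    · rw [if_neg hij, zero_add]
      by_cases hp : ∃ p, i ∈ S p ∧ j ∈ S p ∧ (S p).card ≤ 3
      · obtain ⟨p, hp⟩ := hp
        have h2 : cc S i j = 1 := by
          unfold cc
          rw [if_pos (Or.inr ⟨p, hp⟩)]
        rw [h2, one_mul]
        have h3 : (if i ∈ S p ∧ j ∈ S p ∧ (S p).card ≤ 3 then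
            (if i = j then 0 else w i * w j) else 0) ≤
            ∑ p, if i ∈ S p ∧ j ∈ S p ∧ (S p).card ≤ 3 then (if i = j then 0 else w i * w j) else 0 :=
          Finset.single_le_sum (f := fun p => if i ∈ S p ∧ j ∈ S p ∧ (S p).card ≤ 3 then
            (if i = j then 0 else w i * w j) else 0)
            (fun q _ => by split_ifs <;> simp [hn]) (Finset.mem_univ p)
        rw [if_pos hp] at h3
        simp only [if_neg hij] at h3 ⊢
        exact h3
      · have h2 : cc S i j = 0 := by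
          unfold cc
          rw [if_neg (by rintro (h | h); exacts [hij h, hp h])]
        rw [h2, zero_mul, zero_mul]
        exact hs
  have h2 : ∑ i ∈ I, ∑ j ∈ I, cc S i j * w i * w j ≤ ∑ i ∈ I, w i ^ 2 +
      ∑ p, ∑ i ∈ I, ∑ j ∈ I,
        (if i ∈ S p ∧ j ∈ S p ∧ (S p).card ≤ 3 then (if i = j then 0 else w i * w j) else 0) := by
    refine (Finset.sum_le_sum fun i _ => Finset.sum_le_sum fun j _ => h1 i j).trans ?_
    simp only [Finset.sum_add_distrib]
    have e1 : ∑ i ∈ I, ∑ j ∈ I, (if i = j then w i ^ 2 else 0) = ∑ i ∈ I, w i ^ 2 :=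
      Finset.sum_congr rfl fun i hi => by rw [Finset.sum_ite_eq, if_pos hi]
    have e2 : ∑ i ∈ I, ∑ j ∈ I, ∑ p, (if i ∈ S p ∧ j ∈ S p ∧ (S p).card ≤ 3 then
        (if i = j then 0 else w i * w j) else 0) = ∑ p, ∑ i ∈ I, ∑ j ∈ I,
        (if i ∈ S p ∧ j ∈ S p ∧ (S p).card ≤ 3 then (if i = j then 0 else w i * w j) else 0) := by
      rw [Finset.sum_congr rfl fun i _ => Finset.sum_comm, Finset.sum_comm]
    rw [e1, e2]
  have h3 : ∀ p, ∑ i ∈ I, ∑ j ∈ I,
      (if i ∈ S p ∧ j ∈ S p ∧ (S p).card ≤ 3 then (if i = j then 0 else w i * w j) else 0) ≤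
      if (S p).card ≤ 3 then (∑ i ∈ S p, w i) ^ 2 - ∑ i ∈ S p, w i ^ 2 else 0 := by
    intro p
    by_cases hp : (S p).card ≤ 3
    · rw [if_pos hp]
      have e : ∀ i j, (if i ∈ S p ∧ j ∈ S p ∧ (S p).card ≤ 3 then
          (if i = j then 0 else w i * w j) else 0) =
          if i ∈ S p then (if j ∈ S p then (if i = j then 0 else w i * w j) else 0) else 0 := by
        intro i j
        by_cases hi : i ∈ S p <;> by_cases hj : j ∈ S p <;> simp [hi, hj, hp]
      simp only [e]
      rw [← cross]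
      have hn : ∀ i j : Fin k, 0 ≤ (if i = j then (0 : ℝ) else w i * w j) := by
        intro i j
        split_ifs
        · exact le_refl 0
        · exact mul_nonneg (hw i) (hw j)
      calc ∑ i ∈ I, ∑ j ∈ I, (if i ∈ S p then (if j ∈ S p then (if i = j then 0 else w i * w j)
              else 0) else 0)
          ≤ ∑ i, ∑ j, (if i ∈ S p then (if j ∈ S p then (if i = j then 0 else w i * w j)
              else 0) else 0) := by
            have hn2 : ∀ i j : Fin k, 0 ≤ (if i ∈ S p then (if j ∈ S p then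
                (if i = j then (0 : ℝ) else w i * w j) else 0) else 0) := by
              intro i j
              by_cases hi : i ∈ S p
              · by_cases hj : j ∈ S p
                · rw [if_pos hi, if_pos hj]
                  exact hn i j
                · rw [if_pos hi, if_neg hj]
              · rw [if_neg hi]
            refine (Finset.sum_le_sum fun i _ =>
              Finset.sum_le_univ_sum_of_nonneg fun j => hn2 i j).trans
              (Finset.sum_le_univ_sum_of_nonneg fun i => Finset.sum_nonneg fun j _ => hn2 i j)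
        _ = ∑ i ∈ S p, ∑ j ∈ S p, (if i = j then 0 else w i * w j) := by
            rw [← Finset.sum_filter_add_sum_filter_not univ (fun i => i ∈ S p)]
            have z1 : ∑ i with i ∉ S p, ∑ j, (if i ∈ S p then (if j ∈ S p then
                (if i = j then (0 : ℝ) else w i * w j) else 0) else 0) = 0 :=
              Finset.sum_eq_zero fun i hi => by
                rw [Finset.mem_filter] at hi
                simp [hi.2]
            rw [z1, add_zero]
            have z2 : (univ.filter fun i => i ∈ S p) = S p := by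
              ext i
              simp
            rw [z2]
            refine Finset.sum_congr rfl fun i hi => ?_
            simp only [if_pos hi]
            rw [← Finset.sum_filter, z2]
    · rw [if_neg hp]
      refine le_of_eq (Finset.sum_eq_zero fun i _ => Finset.sum_eq_zero fun j _ => ?_)
      rw [if_neg]
      rintro ⟨_, _, h⟩
      exact hp h
  have h4 := Finset.sum_le_sum fun p (_ : p ∈ (univ : Finset (Fin m))) => h3 p
  linarith

/-- **Main inequality.** `I` is a set of surfaces of negative square, any two of which have a common point of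
multiplicity at most three if they meet. -/
theorem main_ineq {B : V →ₗ[ℝ] V →ₗ[ℝ] ℝ} (hB : ∀ x y, B x y = B y x)
    {S : Fin m → Finset (Fin k)} {t : Fin k → V} (h : Arr B K S g t) (e : ℝ) (Bl : Finset (Fin m))
    (hBl : ∀ p ∉ Bl, (S p).card = 2) (w : Fin k → ℝ) (hw : ∀ i, 0 ≤ w i) (z : Fin m → ℝ)
    (hz : ∀ p, 5 ≤ (S p).card → 0 ≤ z p) (θ : Fin m → ℝ) (hθ : ∀ p, 0 ≤ θ p ∧ θ p ≤ 1)
    {N : ℕ} (hN1 : 1 ≤ N) (hN : NegLE B (Submodule.span ℝ (Set.range t)) N)
    (I : Finset (Fin k)) (hI : ∀ i ∈ I, B (t i) (t i) < 0)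
    (hI3 : ∀ i ∈ I, ∀ j ∈ I, i ≠ j → ∀ p, i ∈ S p → j ∈ S p →
      ∃ q, i ∈ S q ∧ j ∈ S q ∧ (S q).card ≤ 3) :
    cOneSq S (B (K + ∑ i, w i • t i) (K + ∑ i, w i • t i)) Bl w z + (3 * e - B K K) +
      ∑ i, w i * (2 * (g i : ℝ) - 2 + (2 - w i) * B (t i) (t i) - cost S θ (w i) i) +
      ((∑ i ∈ I, w i) ^ 2 / N - ∑ i ∈ I, w i ^ 2) / 8 ≤ 3 * cTwo S e g Bl w z := by
  have hgap := gap hB h e Bl hBl w z
  have hcurv : ∑ i, w i * (2 * (g i : ℝ) - 2 + (2 - w i) * B (t i) (t i) - cost S θ (w i) i) =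
      curv B g t w - ∑ i, w i * cost S θ (w i) i := by
    unfold curv
    rw [← Finset.sum_sub_distrib]
    exact Finset.sum_congr rfl fun i _ => by ring
  have hms := motzkin_straus (cc S) (cc_self S) (cc_symm S) (cc_01 S) N I.card I rfl (by
    intro J hJ hJ0
    refine card_le_index hN J (fun i hi => hI i (hJ hi)) fun i hi j hj hij => ?_
    rw [h.inter i j hij]
    have h0 := hJ0 i hi j hj hij
    have h1 : num S i j = 0 := by
      unfold num
      rw [Finset.card_eq_zero, Finset.filter_eq_empty_iff]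
      rintro p _ ⟨hp1, hp2⟩
      obtain ⟨q, hq⟩ := hI3 i (hJ hi) j (hJ hj) hij p hp1 hp2
      have h2 : cc S i j = 1 := by
        unfold cc
        rw [if_pos (Or.inr ⟨q, hq⟩)]
      rw [h2] at h0
      exact one_ne_zero h0
    rw [h1, Nat.cast_zero]) w hw
  have hpairs := pairs S I w hw
  have hNpos : (0 : ℝ) < N := by exact_mod_cast hN1
  have hms2 : (∑ i ∈ I, w i) ^ 2 / N ≤ ∑ a ∈ I, ∑ b ∈ I, cc S a b * w a * w b := by
    rw [div_le_iff₀ hNpos]
    linarith
  have split : ∀ f : Fin m → ℝ, ∑ p, f p = ∑ p ∈ Bl, f p + ∑ p ∈ univ \ Bl, f p := by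
    intro f
    rw [← Finset.compl_eq_univ_sdiff, Finset.sum_add_sum_compl]
  have hpt : (∑ p, if (S p).card ≤ 3 then (∑ i ∈ S p, w i) ^ 2 - ∑ i ∈ S p, w i ^ 2 else 0) / 8 ≤
      ∑ i, w i * cost S θ (w i) i + rest S Bl w z +
      (3 * mass S Bl w - ∑ p, ((∑ i ∈ S p, w i) ^ 2 - ∑ i ∈ S p, w i ^ 2)) / 4 := by
    rw [cost_sum, split, split fun p => _ - _, split fun p => if 5 ≤ (S p).card then _ else _]
    unfold rest mass
    have h1 : ∑ p ∈ Bl, (if (S p).card ≤ 3 then (∑ i ∈ S p, w i) ^ 2 - ∑ i ∈ S p, w i ^ 2 else 0) / 8 ≤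
        ∑ p ∈ Bl, ((if 5 ≤ (S p).card then
          ∑ i ∈ S p, w i * (2 - 2 * θ p + ((S p).card * θ p ^ 2 / 4 - 1) * w i) else 0) +
        (z p + (∑ i ∈ S p, w i) / 2 - 2) ^ 2 +
        (3 * ∑ i ∈ S p, w i ^ 2 - ((∑ i ∈ S p, w i) ^ 2 - ∑ i ∈ S p, w i ^ 2)) / 4) := by
      refine Finset.sum_le_sum fun p _ => ?_
      have hS : 0 ≤ ∑ i ∈ S p, w i := Finset.sum_nonneg fun i _ => hw i
      have h2 : (∑ i ∈ S p, w i) ^ 2 ≤ (S p).card * ∑ i ∈ S p, w i ^ 2 :=
        sq_sum_le_card_mul_sum_sq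
      have h4 : 0 ≤ ∑ i ∈ S p, w i ^ 2 := Finset.sum_nonneg fun i _ => sq_nonneg _
      by_cases hp : 5 ≤ (S p).card
      · rw [if_pos hp, if_neg (by omega)]
        have e1 : ∑ i ∈ S p, w i * (2 - 2 * θ p + ((S p).card * θ p ^ 2 / 4 - 1) * w i) =
            (2 - 2 * θ p) * ∑ i ∈ S p, w i +
              ((S p).card * θ p ^ 2 / 4 - 1) * ∑ i ∈ S p, w i ^ 2 := by
          rw [Finset.mul_sum, Finset.mul_sum, ← Finset.sum_add_distrib]
          exact Finset.sum_congr rfl fun i _ => by ring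
        rw [e1]
        have hzp := hz p hp
        obtain ⟨ht0, ht1⟩ := hθ p
        have h3 : 0 ≤ z p * (∑ i ∈ S p, w i) * (1 - θ p) :=
          mul_nonneg (mul_nonneg hzp hS) (by linarith)
        have h5 : θ p ^ 2 * (∑ i ∈ S p, w i) ^ 2 ≤
            θ p ^ 2 * ((S p).card * ∑ i ∈ S p, w i ^ 2) :=
          mul_le_mul_of_nonneg_left h2 (sq_nonneg _)
        nlinarith [sq_nonneg (2 - z p - θ p * (∑ i ∈ S p, w i) / 2)]
      · rw [if_neg hp]
        by_cases hp3 : (S p).card ≤ 3
        · rw [if_pos hp3]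
          have h3 : ((S p).card : ℝ) ≤ 3 := by exact_mod_cast hp3
          nlinarith [sq_nonneg (z p + (∑ i ∈ S p, w i) / 2 - 2)]
        · rw [if_neg hp3]
          have h3 : ((S p).card : ℝ) ≤ 4 := by
            have : (S p).card ≤ 4 := by omega
            exact_mod_cast this
          nlinarith [sq_nonneg (z p + (∑ i ∈ S p, w i) / 2 - 2)]
    have h2 : ∑ p ∈ univ \ Bl,
        (if (S p).card ≤ 3 then (∑ i ∈ S p, w i) ^ 2 - ∑ i ∈ S p, w i ^ 2 else 0) / 8 ≤
        ∑ p ∈ univ \ Bl, ((if 5 ≤ (S p).card then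
          ∑ i ∈ S p, w i * (2 - 2 * θ p + ((S p).card * θ p ^ 2 / 4 - 1) * w i) else 0) +
        (3 * (2 * ∏ i ∈ S p, w i) - ((∑ i ∈ S p, w i) ^ 2 - ∑ i ∈ S p, w i ^ 2)) / 4) := by
      refine Finset.sum_le_sum fun p hp => ?_
      have hp2 : p ∉ Bl := (Finset.mem_sdiff.mp hp).2
      obtain ⟨a, b, hab, hS⟩ := Finset.card_eq_two.mp (hBl p hp2)
      have hc := hBl p hp2
      rw [if_pos (show (S p).card ≤ 3 by omega), if_neg (show ¬ 5 ≤ (S p).card by omega), hS,
        Finset.prod_pair hab, Finset.sum_pair hab, Finset.sum_pair hab]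
      have := mul_nonneg (hw a) (hw b)
      nlinarith
    simp only [Finset.sum_add_distrib, Finset.sum_sub_distrib, ← Finset.mul_sum, ← Finset.sum_div]
      at h1 h2 ⊢
    linarith
  linarith

end Pool.Agent.Helper14.BQ
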