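import Pool.Agent.Helper94.BQ.Arr

/-!
The inequality without index, with a free parameter at every point of multiplicity at least five.
-/

set_option autoImplicit false

open Finset

namespace Pool.Agent.Helper14.BQ

open Pool.Agent.Helper26.TOR Pool.Agent.Helper94.BQ

variable {k m : ℕ} {V : Type} [AddCommGroup V] [Module ℝ V] {K : V} {g : Fin k → ℕ}

/-- What the points of multiplicity at least five cost on the surface `i`; the parameter `θ p` is free in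
`[0, 1]`: `θ = 0` gives `2 - w`, `θ = 4 / k` gives `(1 - 4 / k) (2 - w)`, `θ = 2 / √k` gives `2 - 4 / √k`,
`θ = 1` gives `(k / 4 - 1) w`, for a point of multiplicity `k`. -/
noncomputable def cost (S : Fin m → Finset (Fin k)) (θ : Fin m → ℝ) (x : ℝ) (i : Fin k) : ℝ :=
  ∑ p ∈ univ.filter (fun p => i ∈ S p ∧ 5 ≤ (S p).card),
    (2 - 2 * θ p + ((S p).card * θ p ^ 2 / 4 - 1) * x)

lemma cost_sum (S : Fin m → Finset (Fin k)) (θ : Fin m → ℝ) (w : Fin k → ℝ) :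
    ∑ i, w i * cost S θ (w i) i = ∑ p, if 5 ≤ (S p).card then
      ∑ i ∈ S p, w i * (2 - 2 * θ p + ((S p).card * θ p ^ 2 / 4 - 1) * w i) else 0 := by
  have h1 : ∀ i, w i * cost S θ (w i) i = ∑ p, if i ∈ S p ∧ 5 ≤ (S p).card then
      w i * (2 - 2 * θ p + ((S p).card * θ p ^ 2 / 4 - 1) * w i) else 0 := by
    intro i
    unfold cost
    rw [Finset.mul_sum, Finset.sum_filter]
  simp only [h1]
  rw [Finset.sum_comm]
  refine Finset.sum_congr rfl fun p _ => ?_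
  by_cases hp : 5 ≤ (S p).card
  · simp [hp, Finset.sum_ite_mem]
  · simp [hp]

/-- **The inequality without index.** -/
theorem theta_ineq {B : V →ₗ[ℝ] V →ₗ[ℝ] ℝ} (hB : ∀ x y, B x y = B y x)
    {S : Fin m → Finset (Fin k)} {t : Fin k → V} (h : Arr B K S g t) (e : ℝ) (Bl : Finset (Fin m))
    (hBl : ∀ p ∉ Bl, (S p).card = 2) (w : Fin k → ℝ) (hw : ∀ i, 0 ≤ w i) (z : Fin m → ℝ)
    (hz : ∀ p, 5 ≤ (S p).card → 0 ≤ z p) (θ : Fin m → ℝ) (hθ : ∀ p, 0 ≤ θ p ∧ θ p ≤ 1) :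
    cOneSq S (B (K + ∑ i, w i • t i) (K + ∑ i, w i • t i)) Bl w z + (3 * e - B K K) +
      ∑ i, w i * (2 * (g i : ℝ) - 2 + (2 - w i) * B (t i) (t i) - cost S θ (w i) i) ≤
        3 * cTwo S e g Bl w z := by
  have hgap := gap hB h e Bl hBl w z
  have hcurv : ∑ i, w i * (2 * (g i : ℝ) - 2 + (2 - w i) * B (t i) (t i) - cost S θ (w i) i) =
      curv B g t w - ∑ i, w i * cost S θ (w i) i := by
    unfold curv
    rw [← Finset.sum_sub_distrib]
    exact Finset.sum_congr rfl fun i _ => by ring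
  have split : ∀ f : Fin m → ℝ, ∑ p, f p = ∑ p ∈ Bl, f p + ∑ p ∈ univ \ Bl, f p := by
    intro f
    rw [← Finset.compl_eq_univ_sdiff, Finset.sum_add_sum_compl]
  have hpt : 0 ≤ ∑ i, w i * cost S θ (w i) i + rest S Bl w z +
      (3 * mass S Bl w - ∑ p, ((∑ i ∈ S p, w i) ^ 2 - ∑ i ∈ S p, w i ^ 2)) / 4 := by
    rw [cost_sum, split, split fun p => _ - _]
    unfold rest mass
    have h1 : 0 ≤ ∑ p ∈ Bl, ((if 5 ≤ (S p).card then
          ∑ i ∈ S p, w i * (2 - 2 * θ p + ((S p).card * θ p ^ 2 / 4 - 1) * w i) else 0) +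
        (z p + (∑ i ∈ S p, w i) / 2 - 2) ^ 2 +
        (3 * ∑ i ∈ S p, w i ^ 2 - ((∑ i ∈ S p, w i) ^ 2 - ∑ i ∈ S p, w i ^ 2)) / 4) := by
      refine Finset.sum_nonneg fun p _ => ?_
      have hS : 0 ≤ ∑ i ∈ S p, w i := Finset.sum_nonneg fun i _ => hw i
      have h2 : (∑ i ∈ S p, w i) ^ 2 ≤ (S p).card * ∑ i ∈ S p, w i ^ 2 :=
        sq_sum_le_card_mul_sum_sq
      by_cases hp : 5 ≤ (S p).card
      · rw [if_pos hp]
        have e1 : ∑ i ∈ S p, w i * (2 - 2 * θ p + ((S p).card * θ p ^ 2 / 4 - 1) * w i) =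
            (2 - 2 * θ p) * ∑ i ∈ S p, w i +
              ((S p).card * θ p ^ 2 / 4 - 1) * ∑ i ∈ S p, w i ^ 2 := by
          rw [Finset.mul_sum, Finset.mul_sum, ← Finset.sum_add_distrib]
          exact Finset.sum_congr rfl fun i _ => by ring
        rw [e1]
        have hzp := hz p hp
        obtain ⟨ht0, ht1⟩ := hθ p
        have h3 : 0 ≤ z p * (∑ i ∈ S p, w i) * (1 - θ p) :=
          mul_nonneg (mul_nonneg hzp hS) (by linarith)
        have h4 : θ p ^ 2 * (∑ i ∈ S p, w i) ^ 2 ≤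
            θ p ^ 2 * ((S p).card * ∑ i ∈ S p, w i ^ 2) :=
          mul_le_mul_of_nonneg_left h2 (sq_nonneg _)
        nlinarith [sq_nonneg (2 - z p - θ p * (∑ i ∈ S p, w i) / 2)]
      · rw [if_neg hp]
        have h3 : ((S p).card : ℝ) ≤ 4 := by
          have : (S p).card ≤ 4 := by omega
          exact_mod_cast this
        have h4 : 0 ≤ ∑ i ∈ S p, w i ^ 2 := Finset.sum_nonneg fun i _ => sq_nonneg _
        nlinarith [sq_nonneg (z p + (∑ i ∈ S p, w i) / 2 - 2)]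
    have h2 : 0 ≤ ∑ p ∈ univ \ Bl, ((if 5 ≤ (S p).card then
          ∑ i ∈ S p, w i * (2 - 2 * θ p + ((S p).card * θ p ^ 2 / 4 - 1) * w i) else 0) +
        (3 * (2 * ∏ i ∈ S p, w i) - ((∑ i ∈ S p, w i) ^ 2 - ∑ i ∈ S p, w i ^ 2)) / 4) := by
      refine Finset.sum_nonneg fun p hp => ?_
      have hp2 : p ∉ Bl := (Finset.mem_sdiff.mp hp).2
      obtain ⟨a, b, hab, hS⟩ := Finset.card_eq_two.mp (hBl p hp2)
      have hc := hBl p hp2
      rw [if_neg (by omega), hS, Finset.prod_pair hab, Finset.sum_pair hab, Finset.sum_pair hab]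
      have := mul_nonneg (hw a) (hw b)
      nlinarith
    simp only [Finset.sum_add_distrib, Finset.sum_sub_distrib, ← Finset.mul_sum, ← Finset.sum_div]
      at h1 h2 ⊢
    linarith
  linarith

/-- **Inheritance.** If on every branch surface the points of multiplicity at least five cost at most
`2 g - 2 + (2 - w) C²`, then the Bogomolov-Miyaoka-Yau inequality is inherited from `X`. -/
theorem inherit {B : V →ₗ[ℝ] V →ₗ[ℝ] ℝ} (hB : ∀ x y, B x y = B y x)
    {S : Fin m → Finset (Fin k)} {t : Fin k → V} (h : Arr B K S g t) (e : ℝ) (Bl : Finset (Fin m))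
    (hBl : ∀ p ∉ Bl, (S p).card = 2) (w : Fin k → ℝ) (hw : ∀ i, 0 ≤ w i) (z : Fin m → ℝ)
    (hz : ∀ p, 5 ≤ (S p).card → 0 ≤ z p) (θ : Fin m → ℝ) (hθ : ∀ p, 0 ≤ θ p ∧ θ p ≤ 1)
    (hc : ∀ i, cost S θ (w i) i ≤ 2 * (g i : ℝ) - 2 + (2 - w i) * B (t i) (t i)) :
    cOneSq S (B (K + ∑ i, w i • t i) (K + ∑ i, w i • t i)) Bl w z + (3 * e - B K K) ≤
        3 * cTwo S e g Bl w z := by
  have h1 := theta_ineq hB h e Bl hBl w hw z hz θ hθ
  have h2 : 0 ≤ ∑ i, w i * (2 * (g i : ℝ) - 2 + (2 - w i) * B (t i) (t i) - cost S θ (w i) i) :=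
    Finset.sum_nonneg fun i _ => mul_nonneg (hw i) (by linarith [hc i])
  linarith

end Pool.Agent.Helper14.BQ
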